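import Pool.Agent.N62.FQ.LAe
import Pool.Agent.N973.ND.BOX
import Pool.Agent.N973.ND.EQ
import Pool.Agent.Y839.CQ.SYM

/-!
# The exact count in a box, no small primes (after `Pool.Agent.N973.ND.BOX` by helper973)
-/

set_option autoImplicit false
set_option linter.unusedSectionVars false
set_option linter.unusedVariables false

open scoped Classical

namespace Pool.Agent.N62.FQ

open Finset
open Pool.Agent.N973.ND
open Pool.Agent.Y703.CQ (nr sg)

/-- the limit -/
noncomputable def al (a r s : ℕ) : ℝ := am ((r - s) / 2) * pj a r s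

/-- **The exact count in a box.** -/
theorem box49 (A : ℕ → ℕ → ZMod 2) (b : ℕ → ZMod 2) {ι : Type} [Fintype ι]
    [LinearOrder ι] (τ : ι → ℕ) (C : ι → Finset ℕ) (X : ι → ℕ) (κ : ℝ) (m : ℕ)
    (hA : RecA A) (hκ : 0 ≤ κ) (hCX : ∀ i, (C i).card ≤ X i)
    (hHB : HB A (univ.filter fun i => τ i = 2 ∨ τ i = 3) C X κ)
    (hC' : ∀ i, ∀ p ∈ C i, Pr p ∧ ty p = τ i)
    (hdis : ∀ i l, i ≠ l → Disjoint (C i) (C l)) (hine : ∃ i, τ i = 0)
    (hkd' : (univ.filter fun i => τ i = 3).card = (univ.filter fun i => τ i = 1).card + 2 * m) :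
    |(((Fintype.piFinset C).filter fun p => Gd A b (univ.image p)).card : ℝ) -
        al (univ.filter fun i => τ i = 2).card (univ.filter fun i => τ i = 3).card
          (univ.filter fun i => τ i = 1).card * ((Fintype.piFinset C).card : ℝ)| ≤
      2 ^ (Fintype.card ι + (sl (univ.filter fun i => τ i = 2 ∨ τ i = 3)).card) *
        (κ * ∏ j, (X j : ℝ)) := by
  obtain ⟨S₀, hS0⟩ : ∃ S₀ : Finset ℕ, S₀ = ∅ := ⟨∅, rfl⟩
  have _ : IsEmpty S₀ := Finset.isEmpty_coe_sort.2 hS0
  have hS₀ : ∀ v ∈ S₀, Pr v := fun v hv => by
    rw [hS0] at hv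
    exact absurd hv (Finset.notMem_empty v)
  have hC : ∀ i, ∀ p ∈ C i, Pr p ∧ p ∉ S₀ ∧ ty p = τ i := fun i p hp =>
    ⟨(hC' i p hp).1, by rw [hS0]; exact Finset.notMem_empty p, (hC' i p hp).2⟩
  set c2 : ℝ := al (univ.filter fun i => τ i = 2).card (univ.filter fun i => τ i = 3).card
          (univ.filter fun i => τ i = 1).card with hc2
  have key : |(((Fintype.piFinset C).filter fun p => Nd S₀ (univ.image p) ∧
        Gd A b (S₀ ∪ univ.image p)).card : ℝ) -
      c2 * (((Fintype.piFinset C).filter fun p => Nd S₀ (univ.image p)).card : ℝ)| ≤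
    0 * (((Fintype.piFinset C).filter fun p => Nd S₀ (univ.image p)).card : ℝ) +
    2 ^ ((4 * S₀.card + 1) * Fintype.card ι + (sl (univ.filter fun i => τ i = 2 ∨ τ i = 3)).card) *
      (κ * ∏ j, (X j : ℝ)) := by
    set J1 : Finset ι := univ.filter fun i => τ i = 2 ∨ τ i = 3 with hJ1
    set cc : ℝ := 0 with hcc
    set R : ℝ := 2 ^ (sl J1).card * (κ * ∏ j, (X j : ℝ)) with hR
    have hcc0 : 0 ≤ cc := le_rfl
    have hR0 : 0 ≤ R := mul_nonneg (by positivity)
      (mul_nonneg hκ (Finset.prod_nonneg fun j _ => by positivity))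
    -- facts on tuples
    have hinj : ∀ p ∈ Fintype.piFinset C, Function.Injective p := by
      intro p hp i j hij
      rw [Fintype.mem_piFinset] at hp
      by_contra hne
      have h1 := Finset.disjoint_left.1 (hdis i j hne) (hp i)
      rw [hij] at h1
      exact h1 (hp j)
    have hτ : ∀ p ∈ Fintype.piFinset C, ∀ i, ty (p i) = τ i := by
      intro p hp i
      rw [Fintype.mem_piFinset] at hp
      exact (hC i _ (hp i)).2.2
    have hd : ∀ p ∈ Fintype.piFinset C, ∀ i, p i ∉ S₀ := by
      intro p hp i
      rw [Fintype.mem_piFinset] at hp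
      exact (hC i _ (hp i)).2.1
    have hpr : ∀ p ∈ Fintype.piFinset C, ∀ i, Pr (p i) := by
      intro p hp i
      rw [Fintype.mem_piFinset] at hp
      exact (hC i _ (hp i)).1
    -- the part with given labels
    have h1 : ∀ β : ι → Lb S₀, LN S₀ τ β →
        |(((Fintype.piFinset C).filter fun p => (fun i => lb A b S₀ (p i)) = β ∧
            Gd A b (S₀ ∪ univ.image p)).card : ℝ) -
          c2 * (((Fintype.piFinset C).filter fun p => (fun i => lb A b S₀ (p i)) = β).card : ℝ)| ≤
        cc * (((Fintype.piFinset C).filter fun p => (fun i => lb A b S₀ (p i)) = β).card : ℝ) + R := by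
      intro β hβ
      by_cases hemp : ((Fintype.piFinset C).filter fun p => (fun i => lb A b S₀ (p i)) = β) = ∅
      · have he2 : ((Fintype.piFinset C).filter fun p => (fun i => lb A b S₀ (p i)) = β ∧
            Gd A b (S₀ ∪ univ.image p)) = ∅ := by
          rw [← Finset.filter_filter, hemp, Finset.filter_empty]
        rw [he2, hemp]
        simpa using hR0
      obtain ⟨p₀, hp₀⟩ := Finset.nonempty_iff_ne_empty.2 hemp
      rw [Finset.mem_filter] at hp₀
      obtain ⟨hp₀, hp₀β⟩ := hp₀
      set C' : ι → Finset ℕ := fun i => (C i).filter fun q => lb A b S₀ q = β i with hC'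
      have hpi : (Fintype.piFinset C).filter (fun p => (fun i => lb A b S₀ (p i)) = β) =
          Fintype.piFinset C' := by
        ext p
        simp only [Finset.mem_filter, Fintype.mem_piFinset, hC']
        constructor
        · rintro ⟨h2, h3⟩ i
          exact ⟨h2 i, congrFun h3 i⟩
        · intro h2
          exact ⟨fun i => (h2 i).1, funext fun i => (h2 i).2⟩
      set r₀ := rr S₀ p₀ with hr₀
      have hJm : ∀ k, k ∈ J1 ↔ m7 (p₀ k) = 1 := by
        intro k
        rw [hJ1, mem_filter, ← ty_eq_two, hτ p₀ hp₀]
        simp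
      have hrPr : ∀ i, Pr (r₀ i) := by
        rintro (v | k)
        · exact hS₀ _ v.2
        · exact hpr p₀ hp₀ k
      have hrinj : Function.Injective r₀ := rr_inj (hinj p₀ hp₀) (hd p₀ hp₀)
      have huu : ∀ i, m7 (r₀ i) ≤ 1 := fun i => m7_le _
      have hty0 : ∀ n : ℕ, (ty n = 2 ↔ m7 n = 1 ∧ uu n = 0) ∧ (ty n = 1 ↔ ¬ m7 n = 1 ∧ uu n = 1) ∧
          (ty n = 0 ↔ ¬ m7 n = 1 ∧ uu n = 0) := by
        intro n
        have h1 := m7_le n
        by_cases h2 : n % 4 = 3
        · have e1 : ty n = 2 * m7 n + 1 := by unfold ty; rw [if_pos h2]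
          have e2 : uu n = 1 := by unfold uu; rw [if_pos h2]
          rw [e1, e2]
          refine ⟨⟨fun h => by exfalso; omega, fun h => absurd h.2 (by decide)⟩,
            ⟨fun h => ⟨by omega, rfl⟩, fun h => by have := h.1; omega⟩,
            ⟨fun h => by exfalso; omega, fun h => absurd h.2 (by decide)⟩⟩
        · have e1 : ty n = 2 * m7 n + 0 := by unfold ty; rw [if_neg h2]
          have e2 : uu n = 0 := by unfold uu; rw [if_neg h2]
          rw [e1, e2]
          refine ⟨⟨fun h => ⟨by omega, rfl⟩, fun h => by rw [h.1]⟩,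
            ⟨fun h => by exfalso; omega, fun h => absurd h.2 (by decide)⟩,
            ⟨fun h => ⟨by omega, rfl⟩, fun h => by have := h.1; omega⟩⟩
      have H : Hyp J1 (SpR r₀) (PcR r₀) (fun i => uu (r₀ i)) (NR r₀) (ER A r₀) m := Hyp.mk
        (by
          intro k
          rw [hJm k]
          unfold SpR
          rw [mem_filter]
          exact ⟨fun h => h.2, fun h => ⟨mem_univ _, h⟩⟩)
        (by
          intro i
          unfold SpR PcR
          simp only [mem_filter, mem_univ, true_and]
          rw [(hty0 _).1, (hty0 _).2.1])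
        (fun i => nr_self _)
        (by
          intro i j hij
          show nr (r₀ i) (r₀ j) = nr (r₀ j) (r₀ i) + uu (r₀ i) * uu (r₀ j)
          rw [mul_comm (uu (r₀ i))]
          exact nr_rec (hrPr j).1 (hrPr j).2.1 (hrPr i).1 (hrPr i).2.1 fun h => hij (hrinj h.symm))
        (by
          intro i
          unfold ER
          rw [if_pos rfl])
        (by
          intro i hi j hj
          unfold ER
          by_cases hij : i = j
          · rw [if_pos hij, if_pos hij.symm]
          · rw [if_neg hij, if_neg fun h => hij h.symm]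
            have hne : r₀ i ≠ r₀ j := fun h => hij (hrinj h)
            rw [hA (r₀ i) (r₀ j) (hrPr i) (hrPr j) hne (mem_filter.1 hi).2 (mem_filter.1 hj).2,
              nr_rec (hrPr i).1 (hrPr i).2.1 (hrPr j).1 (hrPr j).2.1 hne]
            have : ∀ x y z : ZMod 2, x + (y + z) = x + z + y := by decide
            exact this _ _ _)
        (by
          rintro w ⟨v, hv⟩
          obtain ⟨k, hk, hk2⟩ := hβ w ⟨v, hv⟩
          refine ⟨k, ?_, ?_, ?_⟩
          · rw [hJ1, mem_filter]
            exact ⟨mem_univ _, Or.inl hk⟩
          · have h3 := hτ p₀ hp₀ k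
            rw [hk] at h3
            exact ((hty0 _).1.1 h3).2
          · rw [← hp₀β] at hk2
            exact hk2)
        (by
          obtain ⟨k, hk⟩ := hine
          refine ⟨k, ?_, ?_⟩
          · rw [hJ1, mem_filter, hk]
            simp
          · have h3 := hτ p₀ hp₀ k
            rw [hk] at h3
            exact ((hty0 _).2.2.1 h3).2)
        (by
          have a1 : (SpR r₀).card = (S₀.filter fun q => m7 q = 1).card + J1.card := by
            have a2 := card_filter_sum (fun q => m7 q = 1) r₀
            have a3 := card_coe_filter (S₀ := S₀) (fun q => m7 q = 1)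
            have a4 : (univ.filter fun i : ι => m7 (r₀ (Sum.inr i)) = 1) = J1 := by
              ext k
              rw [hJm k, mem_filter]
              exact ⟨fun h => h.2, fun h => ⟨mem_univ _, h⟩⟩
            rw [a4] at a2
            rw [← a3]
            exact a2
          have a2 : (PcR r₀).card = (S₀.filter fun q => ty q = 2 ∨ ty q = 1).card +
              (univ.filter fun i => τ i = 2 ∨ τ i = 1).card := by
            have b2 := card_filter_sum (fun q => ty q = 2 ∨ ty q = 1) r₀
            have b3 := card_coe_filter (S₀ := S₀) (fun q => ty q = 2 ∨ ty q = 1)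
            have b4 : (univ.filter fun i : ι => ty (r₀ (Sum.inr i)) = 2 ∨ ty (r₀ (Sum.inr i)) = 1) =
                univ.filter fun i => τ i = 2 ∨ τ i = 1 := by
              refine filter_congr fun k _ => ?_
              rw [← hτ p₀ hp₀ k]
              rfl
            rw [b4] at b2
            rw [← b3]
            exact b2
          have a3 : (S₀.filter fun q => m7 q = 1).card = (S₀.filter fun q => ty q = 2).card +
              (S₀.filter fun q => ty q = 3).card := by
            rw [← card_union_of_disjoint, ← filter_or]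
            · congr 1
              exact filter_congr fun q _ => (ty_eq_two q).symm
            · exact disjoint_filter.2 fun q _ h h' => by omega
          have a4 : (S₀.filter fun q => ty q = 2 ∨ ty q = 1).card =
              (S₀.filter fun q => ty q = 2).card + (S₀.filter fun q => ty q = 1).card := by
            rw [← card_union_of_disjoint, ← filter_or]
            exact disjoint_filter.2 fun q _ h h' => by omega
          have a5 : J1.card = (univ.filter fun i => τ i = 2).card +
              (univ.filter fun i => τ i = 3).card := by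
            rw [← card_union_of_disjoint, ← filter_or]
            exact disjoint_filter.2 fun q _ h h' => by omega
          have a6 : (univ.filter fun i => τ i = 2 ∨ τ i = 1).card = (univ.filter fun i => τ i = 2).card +
              (univ.filter fun i => τ i = 1).card := by
            rw [← card_union_of_disjoint, ← filter_or]
            exact disjoint_filter.2 fun q _ h h' => by omega
          have a7 : (S₀.filter fun q => ty q = 3).card = 0 := by
            rw [hS0, Finset.filter_empty, Finset.card_empty]
          have a8 : (S₀.filter fun q => ty q = 1).card = 0 := by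
            rw [hS0, Finset.filter_empty, Finset.card_empty]
          omega)
      have hPm : ∀ k : ι, Sum.inr k ∈ PcR r₀ ↔ τ k = 2 ∨ τ k = 1 := by
        intro k
        unfold PcR
        rw [mem_filter, ← hτ p₀ hp₀ k]
        exact ⟨fun h => h.2, fun h => ⟨mem_univ _, h⟩⟩
      have ha : Nat.card (TA J1 (PcR r₀)) = (univ.filter fun i => τ i = 2).card := by
        rw [Nat.card_eq_fintype_card, Fintype.card_subtype]
        congr 1
        refine filter_congr fun k _ => ?_
        rw [hPm, hJ1, mem_filter]
        constructor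
        · rintro ⟨⟨-, h⟩, h'⟩
          omega
        · intro h
          exact ⟨⟨mem_univ _, Or.inl h⟩, Or.inl h⟩
      have hr' : Nat.card (TR J1 (PcR r₀)) = (univ.filter fun i => τ i = 3).card := by
        rw [Nat.card_eq_fintype_card, Fintype.card_subtype]
        congr 1
        refine filter_congr fun k _ => ?_
        rw [hPm, hJ1, mem_filter]
        constructor
        · rintro ⟨⟨-, h⟩, h'⟩
          omega
        · intro h
          exact ⟨⟨mem_univ _, Or.inr h⟩, by omega⟩
      have hs' : Nat.card (TS J1 (PcR r₀)) = (univ.filter fun i => τ i = 1).card := by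
        rw [Nat.card_eq_fintype_card, Fintype.card_subtype]
        congr 1
        refine filter_congr fun k _ => ?_
        rw [hPm, hJ1, mem_filter]
        constructor
        · rintro ⟨h, h'⟩
          by_contra h1
          exact h ⟨mem_univ _, by omega⟩
        · intro h
          exact ⟨fun h' => by have := h'.2; omega, Or.inr h⟩
      have h2 : |((univ.filter fun σ : sl J1 → ZMod 2 => Gv (SpR r₀) (PcR r₀)
          (pt (NR r₀) (sx σ false)) (pt (ER A r₀) fun k l => sx σ false k l + sx σ true k l)
          (fun i => b (r₀ i))).card : ℝ) / 2 ^ (sl J1).card - c2| ≤ cc := by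
        rw [LAe (t_ALT Pool.Agent.Y839.CQ.t_SYM) H (fun i => b (r₀ i)) ha hr' hs', hc2]
        unfold al
        rw [hkd', Nat.add_sub_cancel_left, Nat.mul_div_cancel_left _ (by norm_num : 0 < 2), sub_self,
          abs_zero]
      set Q : (sl J1 → ZMod 2) → Prop := fun σ => Gv (SpR r₀) (PcR r₀)
        (pt (NR r₀) (sx (σ + sgm A J1 p₀) false))
        (pt (ER A r₀) fun k l => sx (σ + sgm A J1 p₀) false k l + sx (σ + sgm A J1 p₀) true k l)
        (fun i => b (r₀ i)) with hQ
      have h3 := t_EQ A ι J1 C' X κ hκ
        (fun i => (Finset.card_le_card (Finset.filter_subset _ _)).trans (hCX i))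
        (HB_sub hHB fun i q => lb A b S₀ q = β i) Q
      have h4 : ((Fintype.piFinset C).filter fun p => (fun i => lb A b S₀ (p i)) = β ∧
          Gd A b (S₀ ∪ univ.image p)) = ((Fintype.piFinset C').filter fun p =>
            Q fun e => sys A e.1.2 (p e.1.1.1) (p e.1.1.2)) := by
        rw [← hpi, Finset.filter_filter]
        refine Finset.filter_congr fun p hp => ?_
        refine and_congr_right fun hl => ?_
        rw [Gd_iff A b (rr_inj (hinj p hp) (hd p hp)) rr_im]
        exact two_tuples A b hA hS₀ (hinj p hp) (hinj p₀ hp₀) (hpr p hp) (hpr p₀ hp₀) (hd p hp)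
          (hd p₀ hp₀) (hτ p hp) (hτ p₀ hp₀) fun i => by
            have a1 := congrFun hl i
            have a2 := congrFun hp₀β i
            exact a1.trans a2.symm
      have h5 : (((Fintype.piFinset C').card : ℕ) : ℝ) = ∏ j, ((C' j).card : ℝ) := by
        rw [Fintype.card_piFinset]
        push_cast
        rfl
      rw [h4, hpi, h5]
      have hQc : (univ.filter Q).card = (univ.filter fun σ : sl J1 → ZMod 2 => Gv (SpR r₀) (PcR r₀)
          (pt (NR r₀) (sx σ false)) (pt (ER A r₀) fun k l => sx σ false k l + sx σ true k l)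
          (fun i => b (r₀ i))).card := by
        refine card_bij (fun σ _ => σ + sgm A J1 p₀) ?_ ?_ ?_
        · intro σ hσ
          rw [mem_filter] at hσ ⊢
          exact ⟨mem_univ _, hσ.2⟩
        · intro σ _ σ' _ h
          exact add_right_cancel h
        · intro σ hσ
          refine ⟨σ - sgm A J1 p₀, ?_, sub_add_cancel _ _⟩
          rw [mem_filter] at hσ ⊢
          refine ⟨mem_univ _, ?_⟩
          simp only [hQ, sub_add_cancel]
          exact hσ.2
      have h2' : |((univ.filter Q).card : ℝ) / 2 ^ (sl J1).card - c2| ≤ cc := by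
        rw [hQc]
        exact h2
      set n : ℝ := (((Fintype.piFinset C').filter fun p =>
            Q fun e => sys A e.1.2 (p e.1.1.1) (p e.1.1.2)).card : ℝ) with hn
      set q : ℝ := ((univ.filter Q).card : ℝ) / 2 ^ (sl J1).card with hq
      set P : ℝ := ∏ j, ((C' j).card : ℝ) with hP
      have hP0 : 0 ≤ P := Finset.prod_nonneg fun j _ => by positivity
      have h6 : |n - c2 * P| ≤ |n - q * P| + |q - c2| * P := by
        have h7 : n - c2 * P = (n - q * P) + (q - c2) * P := by ring
        have h8 : |(q - c2) * P| = |q - c2| * P := by rw [abs_mul, abs_of_nonneg hP0]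
        rw [h7, ← h8]
        exact abs_add_le _ _
      have h7 : |q - c2| * P ≤ cc * P := mul_le_mul_of_nonneg_right h2' hP0
      have h8 : |n - q * P| ≤ R := h3
      linarith
    -- sum over the labels
    set LL := univ.filter (fun β : ι → Lb S₀ => LN S₀ τ β) with hLL
    have hfib : ∀ T : (ι → ℕ) → Prop,
        (((Fintype.piFinset C).filter fun p => Nd S₀ (univ.image p) ∧ T p).card : ℝ) =
        ∑ β ∈ LL, (((Fintype.piFinset C).filter fun p =>
          (fun i => lb A b S₀ (p i)) = β ∧ T p).card : ℝ) := by
      intro T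
      rw [Finset.card_eq_sum_card_fiberwise (f := fun (p : ι → ℕ) (i : ι) => lb A b S₀ (p i))
        (t := LL) (by
          intro p hp
          rw [Finset.mem_coe, Finset.mem_filter] at hp
          rw [Finset.mem_coe, hLL, Finset.mem_filter]
          exact ⟨Finset.mem_univ _, (nd_iff A b (hτ p hp.1)).1 hp.2.1⟩)]
      push_cast
      refine Finset.sum_congr rfl fun β hβ => ?_
      rw [hLL, Finset.mem_filter] at hβ
      congr 2
      ext p
      simp only [Finset.mem_filter]
      constructor
      · rintro ⟨⟨h3, h4, h4'⟩, h5⟩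
        exact ⟨h3, h5, h4'⟩
      · rintro ⟨h3, h4, h5⟩
        refine ⟨⟨h3, ?_, h5⟩, h4⟩
        rw [nd_iff A b (hτ p h3), h4]
        exact hβ.2
    have hf1 := hfib fun p => Gd A b (S₀ ∪ univ.image p)
    have hf2 := hfib fun _ => True
    simp only [and_true] at hf2
    rw [hf1, hf2, Finset.mul_sum, ← Finset.sum_sub_distrib]
    refine (Finset.abs_sum_le_sum_abs _ _).trans ?_
    refine (Finset.sum_le_sum fun β hβ => h1 β (Finset.mem_filter.1 hβ).2).trans ?_
    rw [Finset.sum_add_distrib, ← Finset.mul_sum, Finset.sum_const, nsmul_eq_mul]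
    have h5 : ((LL.card : ℕ) : ℝ) ≤ 2 ^ ((4 * S₀.card + 1) * Fintype.card ι) := by
      have h6 : LL.card ≤ Fintype.card (ι → Lb S₀) := Finset.card_le_univ _
      rw [Fintype.card_fun, Fintype.card_prod, Fintype.card_prod, Fintype.card_prod,
        Fintype.card_prod, Fintype.card_fun, ZMod.card,
        Fintype.card_coe, ← pow_succ, ← pow_add, ← pow_add, ← pow_add, ← pow_mul] at h6
      have h7 : (S₀.card + (S₀.card + (S₀.card + (S₀.card + 1)))) * Fintype.card ι =
          (4 * S₀.card + 1) * Fintype.card ι := by
        ring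
      rw [h7] at h6
      exact_mod_cast h6
    have h6 := mul_le_mul_of_nonneg_right h5 hR0
    rw [pow_add, mul_assoc]
    linarith

  have hNd : ∀ p : ι → ℕ, Nd S₀ (univ.image p) := by
    rintro p w ⟨v, hv, -⟩
    rw [hS0] at hv
    exact absurd hv (Finset.notMem_empty v)
  have e1 : ((Fintype.piFinset C).filter fun p => Nd S₀ (univ.image p) ∧
      Gd A b (S₀ ∪ univ.image p)) = (Fintype.piFinset C).filter fun p => Gd A b (univ.image p) := by
    refine Finset.filter_congr fun p _ => ?_
    have e0 : S₀ ∪ univ.image p = univ.image p := by rw [hS0, Finset.empty_union]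
    rw [e0]
    exact and_iff_right (hNd p)
  have e2 : ((Fintype.piFinset C).filter fun p => Nd S₀ (univ.image p)) = Fintype.piFinset C :=
    Finset.filter_true_of_mem fun p _ => hNd p
  rw [e1, e2, zero_mul, zero_add] at key
  have e3 : (4 * S₀.card + 1) * Fintype.card ι = Fintype.card ι := by
    rw [hS0, Finset.card_empty]
    ring
  rw [e3] at key
  exact key

end Pool.Agent.N62.FQ
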