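import Pool.Agent.N973.ND.LA
import Pool.Agent.Y759.CX.LA

/-!
# The exact probability that a random completion is good, no small primes
-/

set_option autoImplicit false
set_option linter.unusedSectionVars false
set_option linter.unusedVariables false

open scoped Classical

namespace Pool.Agent.N62.FQ

open Finset Function
open Pool.Agent.N973.ND
open Pool.Agent.Y759.CX (fr fr_equiv fr_comp)

/-- the matrices over the field with two elements with the rows `A ⊕ R` and the columns `A ⊕ S` whose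
block `A × A` is symmetric -/
def Sm (A R S : Type) : AddSubgroup (A ⊕ R → A ⊕ S → ZMod 2) where
  carrier := {M | ∀ i j, M (Sum.inl i) (Sum.inl j) = M (Sum.inl j) (Sum.inl i)}
  add_mem' := by
    intro M M' h h' i j
    rw [Pi.add_apply, Pi.add_apply, Pi.add_apply, Pi.add_apply, h i j, h' i j]
  zero_mem' := fun _ _ => rfl
  neg_mem' := by
    intro M h i j
    rw [Pi.neg_apply, Pi.neg_apply, Pi.neg_apply, Pi.neg_apply, h i j]

/-- the columns of the matrix are linearly independent -/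
def Ij {A R S : Type} [Fintype A] [Fintype S] (M : A ⊕ R → A ⊕ S → ZMod 2) : Prop :=
  ∀ x : A ⊕ S → ZMod 2, (∀ i, ∑ j, M i j * x j = 0) → ∀ j, x j = 0

/-- the proportion of the matrices whose columns are linearly independent -/
noncomputable def pj (a r s : ℕ) : ℝ := fr fun M : Sm (Fin a) (Fin r) (Fin s) => Ij M.1

section eqv

variable {A R S A' R' S' : Type} [Fintype A] [Fintype S] [Fintype A'] [Fintype S']

/-- change of the names of the indices -/
def smE (eA : A ≃ A') (eR : R ≃ R') (eS : S ≃ S') : Sm A R S ≃ Sm A' R' S' where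
  toFun M := ⟨fun i j => M.1 ((Equiv.sumCongr eA eR).symm i) ((Equiv.sumCongr eA eS).symm j),
    fun i j => M.2 (eA.symm i) (eA.symm j)⟩
  invFun M := ⟨fun i j => M.1 (Equiv.sumCongr eA eR i) (Equiv.sumCongr eA eS j),
    fun i j => M.2 (eA i) (eA j)⟩
  left_inv M := by
    apply Subtype.ext
    funext i j
    show M.1 _ _ = _
    rw [Equiv.symm_apply_apply, Equiv.symm_apply_apply]
  right_inv M := by
    apply Subtype.ext
    funext i j
    show M.1 _ _ = _
    rw [Equiv.apply_symm_apply, Equiv.apply_symm_apply]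

theorem ij_smE (eA : A ≃ A') (eR : R ≃ R') (eS : S ≃ S') (M : Sm A R S) :
    Ij (smE eA eR eS M).1 ↔ Ij M.1 := by
  constructor
  · intro h x hx j
    have h1 := h (fun j' => x ((Equiv.sumCongr eA eS).symm j')) (fun i' => by
      have h2 := hx ((Equiv.sumCongr eA eR).symm i')
      rw [← h2]
      exact Equiv.sum_comp (Equiv.sumCongr eA eS).symm
        (fun j => M.1 ((Equiv.sumCongr eA eR).symm i') j * x j)) (Equiv.sumCongr eA eS j)
    simpa using h1
  · intro h x hx j
    have h1 := h (fun j' => x (Equiv.sumCongr eA eS j')) (fun i' => by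
      have h2 := hx (Equiv.sumCongr eA eR i')
      rw [← h2]
      rw [← Equiv.sum_comp (Equiv.sumCongr eA eS)
        (fun j => (smE eA eR eS M).1 (Equiv.sumCongr eA eR i') j * x j)]
      refine Finset.sum_congr rfl fun j' _ => ?_
      show _ = M.1 ((Equiv.sumCongr eA eR).symm (Equiv.sumCongr eA eR i'))
        ((Equiv.sumCongr eA eS).symm (Equiv.sumCongr eA eS j')) * _
      rw [Equiv.symm_apply_apply, Equiv.symm_apply_apply]) ((Equiv.sumCongr eA eS).symm j)
    simpa using h1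

theorem fr_sm [Fintype R] {a r s : ℕ} (ha : Fintype.card A = a) (hr : Fintype.card R = r)
    (hs : Fintype.card S = s) : fr (fun M : Sm A R S => Ij M.1) = pj a r s := by
  have eA : A ≃ Fin a := Fintype.equivFinOfCardEq ha
  have eR : R ≃ Fin r := Fintype.equivFinOfCardEq hr
  have eS : S ≃ Fin s := Fintype.equivFinOfCardEq hs
  unfold pj
  rw [← fr_equiv (smE eA eR eS) (fun M : Sm (Fin a) (Fin r) (Fin s) => Ij M.1)]
  congr 1
  funext M
  exact propext (ij_smE eA eR eS M).symm

end eqv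

section main

variable {U J : Type} [Fintype U] [IsEmpty U] [Fintype J] [LinearOrder J] {J1 : Finset J}
  {Sp Pc : Finset (U ⊕ J)} {u : U ⊕ J → ZMod 2} {N E : U ⊕ J → U ⊕ J → ZMod 2} {m : ℕ}

/-- the split indices which are also indices of columns -/
abbrev TA (J1 : Finset J) (Pc : Finset (U ⊕ J)) : Type := {k : J // k ∈ J1 ∧ Sum.inr k ∈ Pc}

/-- the other split indices -/
abbrev TR (J1 : Finset J) (Pc : Finset (U ⊕ J)) : Type := {k : J // k ∈ J1 ∧ Sum.inr k ∉ Pc}

/-- the other indices of columns -/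
abbrev TS (J1 : Finset J) (Pc : Finset (U ⊕ J)) : Type := {k : J // k ∉ J1 ∧ Sum.inr k ∈ Pc}

/-- the index of a row -/
def v1 {J1 : Finset J} {Pc : Finset (U ⊕ J)} : TA J1 Pc ⊕ TR J1 Pc → J :=
  Sum.elim (fun k => k.1) fun k => k.1

/-- the index of a column -/
def v2 {J1 : Finset J} {Pc : Finset (U ⊕ J)} : TA J1 Pc ⊕ TS J1 Pc → J :=
  Sum.elim (fun k => k.1) fun k => k.1

theorem v1_mem (x : TA J1 Pc ⊕ TR J1 Pc) : v1 x ∈ J1 := by
  rcases x with k | k
  · exact k.2.1
  · exact k.2.1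

theorem v1_sur {k : J} (hk : k ∈ J1) : ∃ x : TA J1 Pc ⊕ TR J1 Pc, v1 x = k := by
  by_cases h : Sum.inr k ∈ Pc
  · exact ⟨Sum.inl ⟨k, hk, h⟩, rfl⟩
  · exact ⟨Sum.inr ⟨k, hk, h⟩, rfl⟩

theorem v2_mem (y : TA J1 Pc ⊕ TS J1 Pc) : Sum.inr (v2 y) ∈ Pc := by
  rcases y with k | k
  · exact k.2.2
  · exact k.2.2

theorem v2_sur {k : J} (hk : Sum.inr k ∈ Pc) : ∃ y : TA J1 Pc ⊕ TS J1 Pc, v2 y = k := by
  by_cases h : k ∈ J1
  · exact ⟨Sum.inl ⟨k, h, hk⟩, rfl⟩
  · exact ⟨Sum.inr ⟨k, h, hk⟩, rfl⟩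

theorem v2_inj : Injective (v2 : TA J1 Pc ⊕ TS J1 Pc → J) := by
  rintro (k | k) (l | l) h
  · exact congrArg Sum.inl (Subtype.ext h)
  · exact absurd k.2.1 (by
      have h' : k.1 = l.1 := h
      rw [h']
      exact l.2.1)
  · exact absurd l.2.1 (by
      have h' : k.1 = l.1 := h
      rw [← h']
      exact k.2.1)
  · exact congrArg Sum.inr (Subtype.ext h)

/-- the matrix of the symbols -/
noncomputable def mt (T : J → J → ZMod 2) (k l : J) : ZMod 2 := T k l + if k = l then ∑ l', T k l' else 0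

theorem mt_add (T T' : J → J → ZMod 2) (k l : J) : mt (T + T') k l = mt T k l + mt T' k l := by
  unfold mt
  by_cases h : k = l
  · simp only [if_pos h, Pi.add_apply, sum_add_distrib]
    ring
  · simp only [if_neg h, Pi.add_apply]
    ring

/-- the matrix of the completion -/
noncomputable def ms (N : U ⊕ J → U ⊕ J → ZMod 2) (b : U ⊕ J → ZMod 2) (σ : sl J1 → ZMod 2)
    (k l : J) : ZMod 2 :=
  (mt (fun k l => N (Sum.inr k) (Sum.inr l)) k l + if k = l then b (Sum.inr k) else 0) +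
    mt (fun k l => sx σ false k l) k l

theorem row_ms (b : U ⊕ J → ZMod 2) (σ : sl J1 → ZMod 2) (x : U ⊕ J → ZMod 2) (k : J) :
    ∑ j, Ns N σ (Sum.inr k) j * x j + TT (Ns N σ) b (Sum.inr k) * x (Sum.inr k) =
      ∑ l, ms N b σ k l * x (Sum.inr l) := by
  have e1 : ∀ f : U ⊕ J → ZMod 2, ∑ j, f j = ∑ l : J, f (Sum.inr l) := by
    intro f
    rw [Fintype.sum_sum_type, Finset.univ_eq_empty (α := U), Finset.sum_empty, zero_add]
  rw [e1]
  unfold TT
  rw [e1]
  have e2 : ∀ l : J, Ns N σ (Sum.inr k) (Sum.inr l) = N (Sum.inr k) (Sum.inr l) + sx σ false k l :=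
    fun _ => rfl
  simp only [e2]
  unfold ms mt
  have e3 : ∀ l : J, ((N (Sum.inr k) (Sum.inr l) +
      (if k = l then ∑ l', N (Sum.inr k) (Sum.inr l') else 0) + if k = l then b (Sum.inr k) else 0) +
      (sx σ false k l + if k = l then ∑ l', sx σ false k l' else 0)) * x (Sum.inr l) =
      (N (Sum.inr k) (Sum.inr l) + sx σ false k l) * x (Sum.inr l) +
      if k = l then (b (Sum.inr k) + ∑ l', (N (Sum.inr k) (Sum.inr l') + sx σ false k l')) *
        x (Sum.inr k) else 0 := by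
    intro l
    by_cases h : k = l
    · subst h
      simp only [if_pos, sum_add_distrib]
      ring
    · simp only [if_neg h]
      ring
  rw [Finset.sum_congr rfl fun l _ => e3 l]
  symm
  refine (Finset.sum_add_distrib).trans ?_
  rw [Finset.sum_ite_eq, if_pos (mem_univ _)]

theorem W_iff (H : Hyp J1 Sp Pc u N E m) (b : U ⊕ J → ZMod 2) (σ : sl J1 → ZMod 2) :
    (∀ x, Wk Sp Pc (Ns N σ) b x → ∀ j, x j = 0) ↔
      Ij (fun (i : TA J1 Pc ⊕ TR J1 Pc) (j : TA J1 Pc ⊕ TS J1 Pc) => ms N b σ (v1 i) (v2 j)) := by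
  constructor
  · intro h z hz y
    set x : U ⊕ J → ZMod 2 := Sum.elim (fun _ => 0) (fun l => ∑ y, if v2 y = l then z y else 0) with hx
    have hxl : ∀ l, x (Sum.inr l) = ∑ y, if v2 y = l then z y else 0 := fun _ => rfl
    have hxy : ∀ y, x (Sum.inr (v2 y)) = z y := by
      intro y
      rw [hxl, Finset.sum_eq_single y]
      · rw [if_pos rfl]
      · intro y' _ hy'
        rw [if_neg fun h' => hy' (v2_inj h')]
      · intro h'; exact absurd (mem_univ _) h'
    have hW : Wk Sp Pc (Ns N σ) b x := by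
      refine ⟨?_, ?_⟩
      · rintro (v | l) hl
        · exact isEmptyElim v
        · rw [hxl]
          refine Finset.sum_eq_zero fun y _ => ?_
          rw [if_neg]
          rintro rfl
          exact hl (v2_mem y)
      · rintro (v | k) hk
        · exact isEmptyElim v
        · rw [row_ms]
          obtain ⟨i, hi⟩ := v1_sur (Pc := Pc) ((H.sp k).1 hk)
          have h1 : ∑ j, ms N b σ (v1 i) (v2 j) * z j = 0 := hz i
          rw [hi] at h1
          rw [← h1]
          symm
          refine Fintype.sum_of_injective v2 v2_inj _ _ ?_ ?_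
          · intro l hl
            rw [hxl, Finset.sum_eq_zero, mul_zero]
            intro y _
            rw [if_neg]
            intro h'
            exact hl ⟨y, h'⟩
          · intro y
            rw [hxy]
    have := h x hW (Sum.inr (v2 y))
    rwa [hxy] at this
  · rintro h x ⟨hx1, hx2⟩ j
    have h1 := h (fun y => x (Sum.inr (v2 y))) (fun i => by
      have h2 := hx2 (Sum.inr (v1 i)) ((H.sp _).2 (v1_mem i))
      rw [row_ms] at h2
      rw [← h2]
      refine Fintype.sum_of_injective v2 v2_inj _ _ ?_ ?_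
      · intro l hl
        rw [hx1 (Sum.inr l), mul_zero]
        intro hl'
        exact hl (v2_sur (J1 := J1) hl')
      · intro y
        rfl)
    rcases j with v | l
    · exact isEmptyElim v
    · by_cases hl : Sum.inr l ∈ Pc
      · obtain ⟨y, rfl⟩ := v2_sur (J1 := J1) hl
        exact h1 y
      · exact hx1 _ hl

/-- the linear part -/
noncomputable def ppi (J1 : Finset J) (Pc : Finset (U ⊕ J)) :
    (sl J1 → ZMod 2) →+ Sm (TA J1 Pc) (TR J1 Pc) (TS J1 Pc) where
  toFun σ := ⟨fun i j => mt (fun k l => sx σ false k l) (v1 i) (v2 j), by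
    intro i j
    show mt _ i.1 j.1 = mt _ j.1 i.1
    by_cases h : i = j
    · rw [h]
    · unfold mt
      rw [if_neg fun h' => h (Subtype.ext h'), if_neg fun h' => h (Subtype.ext h'.symm)]
      show sx σ false i.1 j.1 + 0 = sx σ false j.1 i.1 + 0
      rw [sx_symm]⟩
  map_zero' := by
    apply Subtype.ext
    funext i j
    have h0 : ∀ k l : J, sx (0 : sl J1 → ZMod 2) false k l = 0 := by
      intro k l
      unfold sx
      split_ifs <;> rfl
    show mt _ _ _ = 0
    unfold mt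
    simp only [h0, sum_const_zero, ite_self, add_zero]
  map_add' σ τ := by
    apply Subtype.ext
    funext i j
    show mt _ _ _ = mt _ _ _ + mt _ _ _
    rw [← mt_add]
    congr 1
    funext k l
    exact sx_add σ τ false k l

/-- the symbols with given values -/
theorem sx_val (J1 : Finset J) (val : J → J → ZMod 2) (hs : ∀ k l, val k l = val l k) :
    ∃ σ : sl J1 → ZMod 2, ∀ k l, sx σ false k l = if k = l then 0 else val k l := by
  refine ⟨fun e => val e.1.1.1 e.1.1.2, fun k l => ?_⟩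
  by_cases hkl : k = l
  · subst hkl
    rw [sx_self, if_pos rfl]
  · rw [if_neg hkl]
    unfold sx
    rcases lt_or_gt_of_ne hkl with h | h
    · have h1 : ((k, l), false) ∈ sl J1 := mem_filter.2 ⟨mem_univ _, h, fun h => Bool.noConfusion h⟩
      rw [dif_pos h1]
    · have h1 : ((l, k), false) ∈ sl J1 := mem_filter.2 ⟨mem_univ _, h, fun h => Bool.noConfusion h⟩
      have h2 : ((k, l), false) ∉ sl J1 := fun h' => lt_asymm h (mem_filter.1 h').2.1
      rw [dif_neg h2, dif_pos h1, hs]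

theorem ppi_surj (H : Hyp J1 Sp Pc u N E m) : Surjective (ppi J1 Pc) := by
  intro T
  obtain ⟨k₀, hk₀, hu₀⟩ := H.ine
  have hk₀P : Sum.inr k₀ ∉ Pc := by
    rw [H.pc, H.sp]
    rintro (h | h)
    · exact hk₀ h.1
    · rw [hu₀] at h
      exact zero_ne_one h.2
  -- the entries outside of the diagonal
  set g : J → J → ZMod 2 := fun k l =>
    if h : k ∈ J1 ∧ Sum.inr l ∈ Pc then
      T.1 (if h' : Sum.inr k ∈ Pc then Sum.inl ⟨k, h.1, h'⟩ else Sum.inr ⟨k, h.1, h'⟩)
        (if h' : l ∈ J1 then Sum.inl ⟨l, h', h.2⟩ else Sum.inr ⟨l, h', h.2⟩)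
    else 0 with hg
  have hgT : ∀ (i : TA J1 Pc ⊕ TR J1 Pc) (j : TA J1 Pc ⊕ TS J1 Pc), g (v1 i) (v2 j) = T.1 i j := by
    intro i j
    simp only [hg]
    rw [dif_pos ⟨v1_mem i, v2_mem j⟩]
    have e1 : (if h' : Sum.inr (v1 i) ∈ Pc then Sum.inl ⟨v1 i, v1_mem i, h'⟩
        else Sum.inr ⟨v1 i, v1_mem i, h'⟩ : TA J1 Pc ⊕ TR J1 Pc) = i := by
      rcases i with k | k
      · exact dif_pos k.2.2
      · exact dif_neg k.2.2
    have e2 : (if h' : v2 j ∈ J1 then Sum.inl ⟨v2 j, h', v2_mem j⟩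
        else Sum.inr ⟨v2 j, h', v2_mem j⟩ : TA J1 Pc ⊕ TS J1 Pc) = j := by
      rcases j with k | k
      · exact dif_pos k.2.1
      · exact dif_neg k.2.1
    rw [e1, e2]
  have hgs : ∀ k l, (k ∈ J1 ∧ Sum.inr l ∈ Pc) → (l ∈ J1 ∧ Sum.inr k ∈ Pc) → g k l = g l k := by
    intro k l h h'
    have e1 := hgT (Sum.inl ⟨k, h.1, h'.2⟩) (Sum.inl ⟨l, h'.1, h.2⟩)
    have e2 := hgT (Sum.inl ⟨l, h'.1, h.2⟩) (Sum.inl ⟨k, h.1, h'.2⟩)
    have e3 := T.2 ⟨k, h.1, h'.2⟩ ⟨l, h'.1, h.2⟩
    exact e1.trans (e3.trans e2.symm)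
  obtain ⟨σ₁, hσ₁⟩ := sx_val J1 (fun k l => if k ∈ J1 ∧ Sum.inr l ∈ Pc then g k l else
    if l ∈ J1 ∧ Sum.inr k ∈ Pc then g l k else 0) (by
      intro k l
      by_cases h : k ∈ J1 ∧ Sum.inr l ∈ Pc
      · by_cases h' : l ∈ J1 ∧ Sum.inr k ∈ Pc
        · simp only [if_pos h, if_pos h']
          exact hgs k l h h'
        · simp only [if_pos h, if_neg h']
      · by_cases h' : l ∈ J1 ∧ Sum.inr k ∈ Pc
        · simp only [if_neg h, if_pos h']
        · simp only [if_neg h, if_neg h'])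
  -- the entries of the diagonal
  set d : J → ZMod 2 := fun k => g k k + ∑ l, sx σ₁ false k l with hd
  obtain ⟨σ₂, hσ₂⟩ := sx_val J1 (fun k l => (if l = k₀ then d k else 0) + if k = k₀ then d l else 0)
    (by intro k l; ring)
  refine ⟨σ₁ + σ₂, ?_⟩
  apply Subtype.ext
  funext i j
  rw [map_add]
  show mt _ (v1 i) (v2 j) + mt _ (v1 i) (v2 j) = _
  have hi := v1_mem i
  have hj := v2_mem j
  have hik : v1 i ≠ k₀ := fun h => hk₀ (by rw [← h]; exact hi)
  have hjk : v2 j ≠ k₀ := fun h => hk₀P (by rw [← h]; exact hj)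
  rw [← hgT i j]
  unfold mt
  by_cases h : v1 i = v2 j
  · rw [if_pos h, if_pos h, ← h, sx_self, sx_self, zero_add, zero_add]
    have e : ∑ l, sx σ₂ false (v1 i) l = d (v1 i) := by
      simp only [hσ₂]
      rw [Finset.sum_eq_single k₀]
      · rw [if_neg hik, if_pos rfl, if_neg hik, add_zero]
      · intro l _ hl
        by_cases hil : v1 i = l
        · rw [if_pos hil]
        · rw [if_neg hil, if_neg hl, if_neg hik, add_zero]
      · intro h'; exact absurd (mem_univ _) h'
    rw [e]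
    simp only [hd]
    have : ∀ x y : ZMod 2, x + (y + x) = y := by decide
    exact this _ _
  · rw [if_neg h, if_neg h, add_zero, add_zero, hσ₁, hσ₂, if_neg h, if_neg h, if_neg hjk,
      if_neg hik, add_zero, add_zero, if_pos ⟨hi, hj⟩]

/-- the base point -/
noncomputable def bp (H : Hyp J1 Sp Pc u N E m) (b : U ⊕ J → ZMod 2) :
    Sm (TA J1 Pc) (TR J1 Pc) (TS J1 Pc) :=
  ⟨fun i j => mt (fun k l => N (Sum.inr k) (Sum.inr l)) (v1 i) (v2 j) +
    if v1 i = v2 j then b (Sum.inr (v1 i)) else 0, by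
    intro i j
    show mt _ i.1 j.1 + (if i.1 = j.1 then _ else 0) = mt _ j.1 i.1 + if j.1 = i.1 then _ else 0
    by_cases h : i = j
    · rw [h]
    · have h1 : ¬ i.1 = j.1 := fun h' => h (Subtype.ext h')
      unfold mt
      rw [if_neg h1, if_neg h1, if_neg fun h' => h1 h'.symm, if_neg fun h' => h1 h'.symm]
      have hu : ∀ k : TA J1 Pc, u (Sum.inr k.1) = 0 := by
        intro k
        rcases (H.pc _).1 k.2.2 with h2 | h2
        · exact h2.2
        · exact absurd ((H.sp _).2 k.2.1) h2.1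
      have h3 := H.rc (Sum.inr i.1) (Sum.inr j.1) (fun h' => h1 (Sum.inr_injective h'))
      rw [hu i, zero_mul, add_zero] at h3
      show N (Sum.inr i.1) (Sum.inr j.1) + 0 + 0 = N (Sum.inr j.1) (Sum.inr i.1) + 0 + 0
      rw [h3]⟩

/-- **the exact probability that there is no kernel** -/
theorem fr_W (H : Hyp J1 Sp Pc u N E m) (b : U ⊕ J → ZMod 2) {a r s : ℕ}
    (ha : Nat.card (TA J1 Pc) = a) (hr : Nat.card (TR J1 Pc) = r) (hs : Nat.card (TS J1 Pc) = s) :
    ((univ.filter fun σ : sl J1 → ZMod 2 =>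
        ∀ x, Wk Sp Pc (Ns N σ) b x → ∀ j, x j = 0).card : ℝ) / 2 ^ (sl J1).card = pj a r s := by
  have e1 : fr (fun σ : sl J1 → ZMod 2 => ∀ x, Wk Sp Pc (Ns N σ) b x → ∀ j, x j = 0) =
      pj a r s := by
    rw [← fr_sm (A := TA J1 Pc) (R := TR J1 Pc) (S := TS J1 Pc)
      (by rw [← ha, Nat.card_eq_fintype_card]) (by rw [← hr, Nat.card_eq_fintype_card])
      (by rw [← hs, Nat.card_eq_fintype_card]),
      ← fr_equiv (Equiv.addLeft (bp H b)) (fun M : Sm (TA J1 Pc) (TR J1 Pc) (TS J1 Pc) => Ij M.1),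
      ← fr_comp (ppi J1 Pc) (ppi_surj H)]
    congr 1
    funext σ
    exact propext (W_iff H b σ)
  rw [← e1]
  unfold Pool.Agent.Y759.CX.fr
  rw [Nat.card_eq_fintype_card, Nat.card_eq_fintype_card, Fintype.card_subtype, Fintype.card_fun,
    ZMod.card, Fintype.card_coe]
  push_cast
  rfl

/-- **the exact probability that a completion is good** -/
theorem LAe (hALT : S_ALT) (H : Hyp J1 Sp Pc u N E m) (b : U ⊕ J → ZMod 2) {a r s : ℕ}
    (ha : Nat.card (TA J1 Pc) = a) (hr : Nat.card (TR J1 Pc) = r) (hs : Nat.card (TS J1 Pc) = s) :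
    ((univ.filter fun σ : sl J1 → ZMod 2 => Gv Sp Pc (pt N (sx σ false))
      (pt E fun k l => sx σ false k l + sx σ true k l) b).card : ℝ) / 2 ^ (sl J1).card =
      am m * pj a r s := by
  rw [← fr_W H b ha hr hs, ← mul_div_assoc, ← card_good hALT H b]

end main

end Pool.Agent.N62.FQ
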