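import Pool.Agent.N62.FQ.Tr

/-!
# Numbers with a fixed number of prime factors in each of several sets of primes
-/

set_option autoImplicit false
set_option linter.unusedVariables false
set_option linter.unusedSectionVars false

open scoped Classical

namespace Pool.Agent.N62.FQ

open Finset Filter Topology
open Pool.Agent.V11291.FK

variable {m : ℕ}

/-- the index type -/
abbrev Ig (n : Fin m → ℕ) : Type := Σ c : Fin m, Fin (n c)

/-- the colour of a prime -/
noncomputable def col (S : Fin m → Set ℕ) (p : ℕ) : ℕ :=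
  if h : ∃ c : Fin m, p ∈ S c then (Classical.choose h).val else m

theorem col_eq {S : Fin m → Set ℕ} (hd : ∀ c c', c ≠ c' → Disjoint (S c) (S c')) {c : Fin m} {p : ℕ}
    (hp : p ∈ S c) : col S p = c.val := by
  have h : ∃ c : Fin m, p ∈ S c := ⟨c, hp⟩
  unfold col
  rw [dif_pos h]
  have h1 := Classical.choose_spec h
  by_contra hne
  have h2 : Classical.choose h ≠ c := fun h3 => hne (by rw [h3])
  exact Set.disjoint_left.1 (hd _ _ h2) h1 hp

/-- the colour of an index -/
def tg (n : Fin m → ℕ) (i : Ig n) : ℕ := i.1.val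

/-- the primes in one of the sets -/
def Bg (S : Fin m → Set ℕ) (p : ℕ) : Prop := ∃ c, p ∈ S c

/-- the condition on a set of primes -/
def Qg (S : Fin m → Set ℕ) (n : Fin m → ℕ) (T : Finset ℕ) : Prop :=
  (∀ p ∈ T, ∃ c, p ∈ S c) ∧ ∀ c, (T.filter fun p => p ∈ S c).card = n c

theorem pg_iff {S : Fin m → Set ℕ} (hd : ∀ c c', c ≠ c' → Disjoint (S c) (S c')) (n : Fin m → ℕ)
    (i : Ig n) (p : ℕ) : PG (Bg S) (col S) (tg n) i p ↔ p ∈ S i.1 := by
  unfold PG tg
  constructor
  · rintro ⟨⟨c, hc⟩, h⟩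
    rw [col_eq hd hc] at h
    rwa [← Fin.ext h]
  · intro h
    exact ⟨⟨i.1, h⟩, col_eq hd h⟩

theorem card_tg (n : Fin m → ℕ) (c : Fin m) :
    (univ.filter fun i : Ig n => tg n i = c.val).card = n c := by
  rw [Finset.card_filter, Fintype.sum_sigma, Finset.sum_eq_single c]
  · unfold tg
    simp
  · intro c' _ hc
    refine Finset.sum_eq_zero fun j _ => ?_
    rw [if_neg]
    intro h
    exact hc (Fin.ext h)
  · intro h
    exact absurd (mem_univ _) h

theorem qg_iff {S : Fin m → Set ℕ} (hd : ∀ c c', c ≠ c' → Disjoint (S c) (S c')) (n : Fin m → ℕ)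
    {T : Finset ℕ} (hT : ∀ p ∈ T, Bg S p) :
    QG (col S) (tg n) T ↔ ∀ c, (T.filter fun p => p ∈ S c).card = n c := by
  have key : ∀ c : Fin m, (T.filter fun p => col S p = c.val) = T.filter fun p => p ∈ S c := by
    intro c
    refine Finset.filter_congr fun p hp => ?_
    constructor
    · intro h
      obtain ⟨c', hc'⟩ := hT p hp
      rw [col_eq hd hc'] at h
      rwa [← Fin.ext h]
    · exact fun h => col_eq hd h
  unfold QG
  constructor
  · intro h c
    rw [← key c, h c.val, card_tg]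
  · intro h r
    by_cases hr : r < m
    · have h1 := key ⟨r, hr⟩
      have h2 := card_tg n ⟨r, hr⟩
      have h3 := h ⟨r, hr⟩
      simp only at h1 h2
      rw [h1, h2, h3]
    · rw [Finset.card_eq_zero.2, Finset.card_eq_zero.2]
      · refine Finset.filter_eq_empty_iff.2 fun i _ h => ?_
        have := i.1.2
        unfold tg at h
        omega
      · refine Finset.filter_eq_empty_iff.2 fun p hp h => ?_
        obtain ⟨c', hc'⟩ := hT p hp
        rw [col_eq hd hc'] at h
        have := c'.2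
        omega

/-- the sets of primes -/
noncomputable def Fg (S : Fin m → Set ℕ) (n : Fin m → ℕ) (X : ℕ) : Finset (Finset ℕ) :=
  (range (X + 1)).powerset.filter fun T => Qg S n T ∧ ∏ p ∈ T, p ≤ X

theorem fg_eq {S : Fin m → Set ℕ} (hp : ∀ c, ∀ p ∈ S c, p.Prime)
    (hd : ∀ c c', c ≠ c' → Disjoint (S c) (S c')) (n : Fin m → ℕ) (X : ℕ) [LinearOrder (Ig n)] :
    FW (Bg S) (col S) (tg n) (fun _ => True) X = Fg S n X := by
  have hB : ∀ p, Bg S p → p.Prime := by
    rintro p ⟨c, hc⟩
    exact hp c p hc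
  ext T
  rw [mem_FW hB]
  unfold Fg
  rw [mem_filter, mem_powerset]
  constructor
  · rintro ⟨a1, a2, a3, -⟩
    refine ⟨fun q hq => ?_, ⟨a1, (qg_iff hd n a1).1 a2⟩, a3⟩
    rw [mem_range]
    have h5 : q ≤ ∏ r ∈ T, r := Nat.le_of_dvd
      (Finset.prod_pos fun r hr => (hB r (a1 r hr)).pos) (Finset.dvd_prod_of_mem _ hq)
    omega
  · rintro ⟨-, ⟨b1, b2⟩, b3⟩
    exact ⟨b1, (qg_iff hd n b1).2 b2, b3, trivial⟩

/-- from the numbers to the sets -/
theorem num_eq {S : Fin m → Set ℕ} (hp : ∀ c, ∀ p ∈ S c, p.Prime) (n : Fin m → ℕ)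
    (Q : Finset ℕ → Prop) (X : ℕ) :
    ((Icc 1 X).filter fun N => (Squarefree N ∧ Qg S n N.primeFactors) ∧ Q N.primeFactors).card =
      ((Fg S n X).filter Q).card := by
  refine Finset.card_bij (fun D _ => D.primeFactors) ?_ ?_ ?_
  · intro D hD
    obtain ⟨h1, ⟨h2, hcl⟩, h4⟩ := Finset.mem_filter.1 hD
    obtain ⟨h5, h6⟩ := Finset.mem_Icc.1 h1
    refine Finset.mem_filter.2 ⟨Finset.mem_filter.2 ⟨?_, hcl, ?_⟩, h4⟩
    · rw [Finset.mem_powerset]
      intro p hp
      have := Nat.le_of_dvd (by omega) (Nat.dvd_of_mem_primeFactors hp)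
      exact Finset.mem_range.2 (by omega)
    · rw [Nat.prod_primeFactors_of_squarefree h2]
      exact h6
  · intro D hD E hE h
    have h2 := (Finset.mem_filter.1 hD).2.1.1
    have h3 := (Finset.mem_filter.1 hE).2.1.1
    have h' : D.primeFactors = E.primeFactors := h
    rw [← Nat.prod_primeFactors_of_squarefree h2, ← Nat.prod_primeFactors_of_squarefree h3, h']
  · intro T hT
    obtain ⟨h1, h2⟩ := Finset.mem_filter.1 hT
    obtain ⟨h3, h4, h5⟩ := Finset.mem_filter.1 h1
    have hpr : ∀ p ∈ T, p.Prime := by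
      intro p hpT
      obtain ⟨c, hc⟩ := h4.1 p hpT
      exact hp c p hc
    have hpf : (∏ p ∈ T, p).primeFactors = T := Nat.primeFactors_prod hpr
    have hsq : Squarefree (∏ p ∈ T, p) := by
      refine Finset.squarefree_prod_of_pairwise_isCoprime (fun p hp q hq hpq => ?_)
        fun p hp => (hpr p hp).squarefree
      show IsRelPrime p q
      rw [← Nat.coprime_iff_isRelPrime]
      exact (Nat.coprime_primes (hpr p hp) (hpr q hq)).mpr hpq
    refine ⟨∏ p ∈ T, p, ?_, hpf⟩
    refine Finset.mem_filter.2 ⟨Finset.mem_Icc.2 ⟨?_, h5⟩, ⟨hsq, ?_⟩, ?_⟩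
    · exact Nat.one_le_iff_ne_zero.2 hsq.ne_zero
    · rw [hpf]
      exact h4
    · rw [hpf]
      exact h2

theorem num_eq' {S : Fin m → Set ℕ} (hp : ∀ c, ∀ p ∈ S c, p.Prime) (n : Fin m → ℕ) (X : ℕ) :
    ((Icc 1 X).filter fun N => Squarefree N ∧ Qg S n N.primeFactors).card = (Fg S n X).card := by
  have h := num_eq hp n (fun _ => True) X
  simp only [and_true, Finset.filter_true] at h
  exact h

/-- **the law for the numbers, from the law for the tuples** -/
theorem num_law {S : Fin m → Set ℕ} (hp : ∀ c, ∀ p ∈ S c, p.Prime)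
    (hd : ∀ c c', c ≠ c' → Disjoint (S c) (S c')) (hD : ∀ c, Dn fun p => p ∈ S c) (n : Fin m → ℕ)
    (hn : 1 ≤ ∑ c, n c) (G : Finset ℕ → Prop) (α : ℝ)
    (hlaw : ∀ [inst : LinearOrder (Ig n)], Tendsto (fun X : ℕ =>
      (((Tup (fun (i : Ig n) p => p ∈ S i.1) X).filter fun p => G (univ.image p)).card : ℝ) /
        ((Tup (fun (i : Ig n) p => p ∈ S i.1) X).card : ℝ)) atTop (𝓝 α)) :
    (∃ (c₀ C : ℝ) (X₀ : ℕ), 0 < c₀ ∧ 0 < C ∧ ∀ X : ℕ, X₀ ≤ X →
      c₀ * (X * Real.log (Real.log X) ^ (∑ c, n c - 1) / Real.log X) ≤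
        (((Icc 1 X).filter fun N => Squarefree N ∧ Qg S n N.primeFactors).card : ℝ) ∧
      (((Icc 1 X).filter fun N => Squarefree N ∧ Qg S n N.primeFactors).card : ℝ) ≤
        C * (X * Real.log (Real.log X) ^ (∑ c, n c - 1) / Real.log X)) ∧
    Tendsto (fun X : ℕ =>
      (((Icc 1 X).filter fun N => (Squarefree N ∧ Qg S n N.primeFactors) ∧ G N.primeFactors).card : ℝ) /
      (((Icc 1 X).filter fun N => Squarefree N ∧ Qg S n N.primeFactors).card : ℝ)) atTop (𝓝 α) := by
  let _ : LinearOrder (Ig n) := LinearOrder.lift' (Fintype.equivFin (Ig n))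
    (Fintype.equivFin (Ig n)).injective
  have hB : ∀ p, Bg S p → p.Prime := by
    rintro p ⟨c, hc⟩
    exact hp c p hc
  have hP : PG (Bg S) (col S) (tg n) = fun (i : Ig n) p => p ∈ S i.1 := by
    funext i p
    exact propext (pg_iff hd n i p)
  have hcard : Fintype.card (Ig n) = ∑ c, n c := by
    rw [Fintype.card_sigma]
    exact Finset.sum_congr rfl fun c _ => Fintype.card_fin _
  have hne : Nonempty (Ig n) := by
    rw [← Fintype.card_pos_iff, hcard]
    omega
  obtain ⟨i₀⟩ := hne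
  have hT : TW (Bg S) (col S) (tg n) (fun _ => True) =
      Tup (fun (i : Ig n) p => p ∈ S i.1) := by
    funext X
    unfold TW
    rw [Finset.filter_true, hP]
  simp only [num_eq' hp n, num_eq hp n G]
  refine ⟨?_, ?_⟩
  · have hL : LowH (TW (Bg S) (col S) (tg n) (fun _ => True)) := by
      rw [hT]
      exact low (fun i p h => hp i.1 p h) (fun i => hD i.1) i₀
    obtain ⟨c₀, X₀, hc₀, hlow⟩ := FW_low (W := fun _ => True) hB i₀ hL
    obtain ⟨C, X₁, hC, hup⟩ := FW_up (B := Bg S) (cl := col S) (τ := tg n) hB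
      (j := ∑ c, n c - 1) (by rw [hcard]; omega) (fun _ => True)
    refine ⟨c₀, C, max X₀ X₁, hc₀, hC, fun X hX => ?_⟩
    rw [← fg_eq hp hd n X]
    have h6 := hlow X ((le_max_left _ _).trans hX)
    rw [hcard] at h6
    exact ⟨h6, hup X ((le_max_right _ _).trans hX)⟩
  · refine hlaw.congr fun X => ?_
    obtain ⟨k, hk, hcd⟩ := card_propG (B := Bg S) (τ := tg n) (cl := col S) hB (fun _ => True) X
    rw [hT, fg_eq hp hd n X] at hcd
    have e1 := hcd G
    have e2 := hcd fun _ => True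
    rw [Finset.filter_true, Finset.filter_true] at e2
    rw [e1, e2]
    have hm0 : (k : ℝ) ≠ 0 := by exact_mod_cast (by omega : k ≠ 0)
    push_cast
    rw [mul_div_mul_left _ _ hm0]

/-- the number of the indices with a given kind -/
theorem card_kind (n K : Fin m → ℕ) (r : ℕ) :
    (univ.filter fun i : Ig n => K i.1 = r).card = ∑ c ∈ univ.filter (fun c => K c = r), n c := by
  rw [Finset.card_filter, Fintype.sum_sigma, Finset.sum_filter]
  refine Finset.sum_congr rfl fun c _ => ?_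
  by_cases h : K c = r
  · simp [h]
  · simp [h]

/-- the number of the primes of a given kind -/
theorem card_qg {S : Fin m → Set ℕ} (hd : ∀ c c', c ≠ c' → Disjoint (S c) (S c'))
    {n K : Fin m → ℕ} {T : Finset ℕ} (hT : Qg S n T) {κ : ℕ → ℕ} (hκ : ∀ c, ∀ p ∈ S c, κ p = K c)
    (r : ℕ) : (T.filter fun p => κ p = r).card = ∑ c ∈ univ.filter (fun c => K c = r), n c := by
  have e : (T.filter fun p => κ p = r) =
      (univ.filter fun c => K c = r).biUnion fun c => T.filter fun p => p ∈ S c := by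
    ext p
    simp only [mem_filter, mem_biUnion, mem_univ, true_and]
    constructor
    · rintro ⟨h1, h2⟩
      obtain ⟨c, hc⟩ := hT.1 p h1
      exact ⟨c, by rw [← hκ c p hc, h2], h1, hc⟩
    · rintro ⟨c, h1, h2, h3⟩
      exact ⟨h2, by rw [hκ c p h3, h1]⟩
  rw [e, Finset.card_biUnion]
  · exact Finset.sum_congr rfl fun c _ => hT.2 c
  · intro c _ c' _ hcc
    show Disjoint (T.filter fun p => p ∈ S c) (T.filter fun p => p ∈ S c')
    rw [Finset.disjoint_left]
    intro p hp hp'
    exact Set.disjoint_left.1 (hd c c' hcc) (mem_filter.1 hp).2 (mem_filter.1 hp').2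

end Pool.Agent.N62.FQ
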