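import Pool.Agent.N62.FQ.Tup49
import Pool.Agent.Y219.CQ.Abs

/-!
# The proportion of the matrices with independent columns: two special cases
-/

set_option autoImplicit false
set_option linter.unusedVariables false
set_option linter.unusedSectionVars false

open scoped Classical

namespace Pool.Agent.N62.FQ

open Finset
open Pool.Agent.Y703.CQ (S_SYM)
open Pool.Agent.Y219.CQ (sp card_symm)

/-- a symmetric matrix as an element of `Sm` -/
def smM (n : ℕ) : Sm (Fin n) (Fin 0) (Fin 0) ≃ {M : Matrix (Fin n) (Fin n) (ZMod 2) // M.IsSymm} where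
  toFun M := ⟨Matrix.of fun i j => M.1 (Sum.inl i) (Sum.inl j), by
    rw [Matrix.IsSymm.ext_iff]
    exact fun i j => M.2 j i⟩
  invFun M := ⟨Sum.elim (fun i => Sum.elim (fun j => M.1 i j) fun j => j.elim0) fun i => i.elim0,
    fun i j => (Matrix.IsSymm.ext_iff.1 M.2) j i⟩
  left_inv M := by
    apply Subtype.ext
    funext i j
    rcases i with i | i
    · rcases j with j | j
      · rfl
      · exact j.elim0
    · exact i.elim0
  right_inv M := by
    apply Subtype.ext
    ext i j
    rfl

theorem ij_smM {n : ℕ} (M : Sm (Fin n) (Fin 0) (Fin 0)) : Ij M.1 ↔ (smM n M).1.det ≠ 0 := by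
  rw [Ne, ← Matrix.exists_mulVec_eq_zero_iff]
  constructor
  · rintro h ⟨v, hv, h0⟩
    apply hv
    funext j
    refine h (Sum.elim v fun j => j.elim0) (fun i => ?_) (Sum.inl j)
    rcases i with i | i
    · rw [Fintype.sum_sum_type]
      simp only [Finset.univ_eq_empty, Finset.sum_empty, add_zero]
      exact congrFun h0 i
    · exact i.elim0
  · intro h x hx j
    by_contra hj
    apply h
    refine ⟨fun i => x (Sum.inl i), ?_, ?_⟩
    · intro h0
      apply hj
      rcases j with j | j
      · exact congrFun h0 j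
      · exact j.elim0
    · funext i
      have h1 := hx (Sum.inl i)
      rw [Fintype.sum_sum_type] at h1
      simp only [Finset.univ_eq_empty, Finset.sum_empty, add_zero] at h1
      exact h1

/-- no other rows and columns -/
theorem pj_symm (h : S_SYM) (n : ℕ) : pj n 0 0 = sp n := by
  unfold pj Pool.Agent.Y759.CX.fr
  have e2 : {M : Sm (Fin n) (Fin 0) (Fin 0) // Ij M.1} ≃
      {M : Matrix (Fin n) (Fin n) (ZMod 2) // M.IsSymm ∧ M.det ≠ 0} :=
    ((smM n).subtypeEquiv (p := fun M => Ij M.1) (q := fun M => M.1.det ≠ 0)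
      fun M => ij_smM M).trans
      (Equiv.subtypeSubtypeEquivSubtypeInter (fun M : Matrix (Fin n) (Fin n) (ZMod 2) => M.IsSymm)
        fun M => M.det ≠ 0)
  rw [Nat.card_congr e2, Nat.card_congr (smM n), card_symm, h n]
  unfold Pool.Agent.Y219.CQ.sp
  push_cast
  rw [mul_comm, mul_div_assoc, div_self (by positivity), mul_one]

/-- no symmetric block: the columns -/
def smC (r s : ℕ) : Sm (Fin 0) (Fin r) (Fin s) ≃ (Fin s → Fin r → ZMod 2) where
  toFun M := fun j i => M.1 (Sum.inr i) (Sum.inr j)
  invFun M := ⟨Sum.elim (fun i => i.elim0) fun i => Sum.elim (fun j => j.elim0) fun j => M j i,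
    fun i => i.elim0⟩
  left_inv M := by
    apply Subtype.ext
    funext i j
    rcases i with i | i
    · exact i.elim0
    · rcases j with j | j
      · exact j.elim0
      · rfl
  right_inv M := rfl

theorem ij_smC {r s : ℕ} (M : Sm (Fin 0) (Fin r) (Fin s)) :
    Ij M.1 ↔ LinearIndependent (ZMod 2) (smC r s M) := by
  rw [Fintype.linearIndependent_iff]
  constructor
  · intro h g hg j
    refine h (Sum.elim (fun j => j.elim0) g) (fun i => ?_) (Sum.inr j)
    rcases i with i | i
    · exact i.elim0
    · rw [Fintype.sum_sum_type]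
      simp only [Finset.univ_eq_empty, Finset.sum_empty, zero_add]
      have h1 := congrFun hg i
      rw [Finset.sum_apply] at h1
      refine Eq.trans (Finset.sum_congr rfl fun j' _ => ?_) h1
      show M.1 (Sum.inr i) (Sum.inr j') * g j' = g j' • M.1 (Sum.inr i) (Sum.inr j')
      rw [smul_eq_mul, mul_comm]
  · intro h x hx j
    rcases j with j | j
    · exact j.elim0
    · refine h (fun j => x (Sum.inr j)) ?_ j
      funext i
      have h1 := hx (Sum.inr i)
      rw [Fintype.sum_sum_type] at h1
      simp only [Finset.univ_eq_empty, Finset.sum_empty, zero_add] at h1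
      rw [Finset.sum_apply]
      refine Eq.trans (Finset.sum_congr rfl fun j' _ => ?_) h1
      show x (Sum.inr j') • M.1 (Sum.inr i) (Sum.inr j') = M.1 (Sum.inr i) (Sum.inr j') * x (Sum.inr j')
      rw [smul_eq_mul, mul_comm]

/-- no symmetric block -/
theorem pj_rect {r s : ℕ} (h : s ≤ r) : pj 0 r s = ∏ i ∈ range s, (1 - (2 : ℝ) ^ i / 2 ^ r) := by
  unfold pj Pool.Agent.Y759.CX.fr
  have hV : Module.finrank (ZMod 2) (Fin r → ZMod 2) = r := by
    rw [Module.finrank_fintype_fun_eq_card, Fintype.card_fin]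
  have h1 := card_linearIndependent (K := ZMod 2) (V := Fin r → ZMod 2) (k := s) (by rw [hV]; exact h)
  rw [hV, ZMod.card] at h1
  have e2 : {M : Sm (Fin 0) (Fin r) (Fin s) // Ij M.1} ≃
      {v : Fin s → (Fin r → ZMod 2) // LinearIndependent (ZMod 2) v} :=
    (smC r s).subtypeEquiv (p := fun M => Ij M.1) (q := fun v => LinearIndependent (ZMod 2) v)
      fun M => ij_smC M
  rw [Nat.card_congr e2, h1, Nat.card_congr (smC r s), Nat.card_fun, Nat.card_fun,
    Nat.card_eq_fintype_card, Nat.card_eq_fintype_card, ZMod.card, Fintype.card_fin,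
    Nat.card_eq_fintype_card, Fintype.card_fin, ← pow_mul]
  push_cast
  have h3 : ((2 : ℝ) ^ r) ^ s = ∏ _i ∈ range s, (2 : ℝ) ^ r := by
    rw [Finset.prod_const, Finset.card_range]
  rw [← Finset.prod_range (fun i => ((2 ^ r - 2 ^ i : ℕ) : ℝ)), pow_mul, h3,
    ← Finset.prod_div_distrib]
  refine Finset.prod_congr rfl fun i hi => ?_
  rw [mem_range] at hi
  have h2 : 2 ^ i ≤ 2 ^ r := Nat.pow_le_pow_right (by norm_num) (by omega)
  rw [Nat.cast_sub h2]
  push_cast
  rw [sub_div, div_self (by positivity)]

end Pool.Agent.N62.FQ
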