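import Pool.Agent.N62.FQ.Tup
import Pool.Agent.Y514.CQ.NS

/-!
# Quadratic twists with a fixed number of prime factors: the sets of primes and the numbers
-/

set_option autoImplicit false
set_option linter.unusedVariables false
set_option linter.unusedSectionVars false

open scoped Classical

namespace Pool.Agent.N62.FQ

open Finset Filter Topology
open Pool.Agent.V11291.FK
open Pool.Agent.Y703.CQ (Sp In Cl Gd Ok SS)
open Pool.Agent.Y219.CQ (sp)

/-- the index type -/
abbrev Ix (a b c : ℕ) : Type := Fin a ⊕ (Fin b ⊕ Fin c)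

/-- the residues modulo `8` -/
def ty (a b c : ℕ) : Ix a b c → ℕ := Sum.elim (fun _ => 1) (Sum.elim (fun _ => 3) fun _ => 5)

theorem card_Ix (a b c : ℕ) : Fintype.card (Ix a b c) = a + b + c := by
  rw [Fintype.card_sum, Fintype.card_sum, Fintype.card_fin, Fintype.card_fin, Fintype.card_fin,
    add_assoc]

theorem ty_mem {a b c : ℕ} (i : Ix a b c) : ty a b c i = 1 ∨ ty a b c i = 3 ∨ ty a b c i = 5 := by
  rcases i with i | i | i
  · exact Or.inl rfl
  · exact Or.inr (Or.inl rfl)
  · exact Or.inr (Or.inr rfl)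

theorem card_ty (a b c : ℕ) : (univ.filter fun i => ty a b c i = 1).card = a ∧
    (univ.filter fun i => ty a b c i = 3).card = b ∧
    (univ.filter fun i => ty a b c i = 5).card = c := by
  unfold ty
  refine ⟨?_, ?_, ?_⟩
  · rw [Finset.card_filter, Fintype.sum_sum_type, Fintype.sum_sum_type]
    simp
  · rw [Finset.card_filter, Fintype.sum_sum_type, Fintype.sum_sum_type]
    simp
  · rw [Finset.card_filter, Fintype.sum_sum_type, Fintype.sum_sum_type]
    simp

/-- the property of the primes -/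
def Bd (A : ℕ → Prop) (p : ℕ) : Prop := A p ∧ (Sp p ∨ In {3, 5} p)

theorem bd_prime {A : ℕ → Prop} : ∀ p, Bd A p → p.Prime := by
  intro p h
  rcases h.2 with h1 | h1
  · exact h1.1
  · exact h1.1

/-- the number of the primes of the kind `r` -/
def kn (r : ℕ) (S : Finset ℕ) : ℕ := (S.filter fun p => p % 8 = r).card

/-- the condition on the sets -/
def Qs (A : ℕ → Prop) (a b c : ℕ) (S : Finset ℕ) : Prop :=
  (∀ p ∈ S, A p) ∧ kn 1 S = a ∧ kn 3 S = b ∧ kn 5 S = c

theorem mod_of {p : ℕ} (h : Sp p ∨ In {3, 5} p) : p % 8 = 1 ∨ p % 8 = 3 ∨ p % 8 = 5 := by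
  rcases h with h | h
  · exact Or.inl h.2.1
  · have := h.2.2.1
    rw [Finset.mem_insert, Finset.mem_singleton] at this
    exact Or.inr this

theorem fw_iff {A : ℕ → Prop} {a b c X : ℕ} [LinearOrder (Ix a b c)] (hc : Even c) {S : Finset ℕ} :
    S ∈ FW (Bd A) (fun p => p % 8) (ty a b c) (fun _ => True) X ↔
      S ∈ (SS {3, 5} {0, 1} X).filter (Qs A a b c) := by
  obtain ⟨h1, h2, h3⟩ := card_ty a b c
  rw [mem_FW bd_prime, mem_filter]
  unfold SS Qs kn
  rw [mem_filter, mem_powerset]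
  constructor
  · rintro ⟨a1, a2, a3, -⟩
    have a5 := a2 1
    have a6 := a2 3
    have a7 := a2 5
    simp only at a5 a6 a7
    rw [h1] at a5
    rw [h2] at a6
    rw [h3] at a7
    refine ⟨⟨fun q hq => ?_, ⟨fun p hp => (a1 p hp).2, ?_, ?_⟩, a3⟩,
      fun p hp => (a1 p hp).1, a5, a6, a7⟩
    · rw [mem_range]
      have h5 : q ≤ ∏ r ∈ S, r := Nat.le_of_dvd
        (Finset.prod_pos fun r hr => (bd_prime r (a1 r hr)).pos) (Finset.dvd_prod_of_mem _ hq)
      omega
    · rw [a7]
      exact Nat.even_iff.1 hc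
    · rcases Nat.mod_two_eq_zero_or_one (S.filter fun q => q % 8 = 3).card with h | h
      · rw [h]; decide
      · rw [h]; decide
  · rintro ⟨⟨b1, ⟨b2, b3, b4⟩, b6⟩, b7, b8, b9, b10⟩
    refine ⟨fun p hp => ⟨b7 p hp, b2 p hp⟩, fun r => ?_, b6, trivial⟩
    by_cases hr1 : r = 1
    · subst hr1
      rw [h1]
      exact b8
    by_cases hr2 : r = 3
    · subst hr2
      rw [h2]
      exact b9
    by_cases hr3 : r = 5
    · subst hr3
      rw [h3]
      exact b10
    rw [Finset.card_eq_zero.2, Finset.card_eq_zero.2]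
    · refine Finset.filter_eq_empty_iff.2 fun i _ h => ?_
      have := ty_mem i
      omega
    · refine Finset.filter_eq_empty_iff.2 fun p hp h => ?_
      simp only at h
      have := mod_of (b2 p hp)
      omega

/-- the law for the sets of primes -/
theorem set_law {A : ℕ → Prop} {a b c : ℕ} (hc : Even c) (hbc : 1 ≤ b + c)
    (hD1 : 1 ≤ a → Dn fun p => A p ∧ Kd 1 p) (hD3 : 1 ≤ b → Dn fun p => A p ∧ Kd 3 p)
    (hD5 : 1 ≤ c → Dn fun p => A p ∧ Kd 5 p) (f : ℕ → ZMod 2) :
    Tendsto (fun X : ℕ => (((SS {3, 5} {0, 1} X).filter fun S => Qs A a b c S ∧ Gd f S).card : ℝ) /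
      (((SS {3, 5} {0, 1} X).filter (Qs A a b c)).card : ℝ)) atTop (𝓝 (sp a)) := by
  let _ : LinearOrder (Ix a b c) := LinearOrder.lift' (Fintype.equivFin (Ix a b c))
    (Fintype.equivFin (Ix a b c)).injective
  obtain ⟨h1, h2, h3⟩ := card_ty a b c
  set P := PG (Bd A) (fun p => p % 8) (ty a b c) with hPd
  have hP : ∀ i p, P i p → Kd (ty a b c i) p := fun i p h => ⟨h.1.2, h.2⟩
  have hPD : ∀ i, Dn (P i) := by
    have key : ∀ (r : ℕ) (i : Ix a b c), ty a b c i = r → (Dn fun p => A p ∧ Kd r p) → Dn (P i) := by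
      intro r i hi h
      have e : P i = fun p => A p ∧ Kd r p := by
        funext p
        apply propext
        rw [hPd]
        unfold PG Bd Kd
        rw [hi]
        tauto
      rw [e]
      exact h
    rintro (i | i | i)
    · exact key 1 _ rfl (hD1 (by have := i.2; omega))
    · exact key 3 _ rfl (hD3 (by have := i.2; omega))
    · exact key 5 _ rfl (hD5 (by have := i.2; omega))
  have hne : ∃ i, ty a b c i ≠ 1 := by
    rcases Nat.eq_zero_or_pos b with hb | hb
    · have hc0 : 0 < c := by omega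
      exact ⟨Sum.inr (Sum.inr ⟨0, hc0⟩), by show (5 : ℕ) ≠ 1; norm_num⟩
    · exact ⟨Sum.inr (Sum.inl ⟨0, hb⟩), by show (3 : ℕ) ≠ 1; norm_num⟩
  have h := tup_law (P := P) (τ := ty a b c) hP ⟨by rw [h3]; exact hc, hne⟩ hPD f
  have hJ : (J1 (ty a b c)).card = a := h1
  rw [hJ] at h
  refine h.congr fun X => ?_
  obtain ⟨m, hm, hcd⟩ := card_propG (B := Bd A) (τ := ty a b c) (cl := fun p => p % 8) bd_prime
    (fun _ => True) X
  have e0 : TW (Bd A) (fun p => p % 8) (ty a b c) (fun _ => True) X = Tup P X := by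
    unfold TW
    rw [Finset.filter_true]
  rw [e0] at hcd
  have eS : FW (Bd A) (fun p => p % 8) (ty a b c) (fun _ => True) X =
      (SS {3, 5} {0, 1} X).filter (Qs A a b c) := Finset.ext fun S => fw_iff hc
  have e1 := hcd (Gd f)
  have e2 := hcd fun _ => True
  rw [Finset.filter_true, Finset.filter_true] at e2
  rw [eS] at e1 e2
  rw [Finset.filter_filter] at e1
  rw [e1, e2]
  have hm0 : (m : ℝ) ≠ 0 := by exact_mod_cast (by omega : m ≠ 0)
  push_cast
  rw [mul_div_mul_left _ _ hm0]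

/-- the number of the sets of primes -/
theorem set_size {A : ℕ → Prop} {a b c : ℕ} (hc : Even c) (hbc : 1 ≤ b + c)
    (hD1 : 1 ≤ a → Dn fun p => A p ∧ Kd 1 p) (hD3 : 1 ≤ b → Dn fun p => A p ∧ Kd 3 p)
    (hD5 : 1 ≤ c → Dn fun p => A p ∧ Kd 5 p) :
    ∃ (c₀ C : ℝ) (X₀ : ℕ), 0 < c₀ ∧ 0 < C ∧ ∀ X : ℕ, X₀ ≤ X →
      c₀ * (X * Real.log (Real.log X) ^ (a + b + c - 1) / Real.log X) ≤
        (((SS {3, 5} {0, 1} X).filter (Qs A a b c)).card : ℝ) ∧
      (((SS {3, 5} {0, 1} X).filter (Qs A a b c)).card : ℝ) ≤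
        C * (X * Real.log (Real.log X) ^ (a + b + c - 1) / Real.log X) := by
  let _ : LinearOrder (Ix a b c) := LinearOrder.lift' (Fintype.equivFin (Ix a b c))
    (Fintype.equivFin (Ix a b c)).injective
  set P := PG (Bd A) (fun p => p % 8) (ty a b c) with hPd
  have hPD : ∀ i, Dn (P i) := by
    have key : ∀ (r : ℕ) (i : Ix a b c), ty a b c i = r → (Dn fun p => A p ∧ Kd r p) → Dn (P i) := by
      intro r i hi h
      have e : P i = fun p => A p ∧ Kd r p := by
        funext p
        apply propext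
        rw [hPd]
        unfold PG Bd Kd
        rw [hi]
        tauto
      rw [e]
      exact h
    rintro (i | i | i)
    · exact key 1 _ rfl (hD1 (by have := i.2; omega))
    · exact key 3 _ rfl (hD3 (by have := i.2; omega))
    · exact key 5 _ rfl (hD5 (by have := i.2; omega))
  have hne : Nonempty (Ix a b c) := by
    rw [← Fintype.card_pos_iff, card_Ix]
    omega
  obtain ⟨i₀⟩ := hne
  have hL : LowH (TW (Bd A) (fun p => p % 8) (ty a b c) (fun _ => True)) := by
    have e0 : TW (Bd A) (fun p => p % 8) (ty a b c) (fun _ => True) = Tup P := by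
      funext X
      unfold TW
      rw [Finset.filter_true]
    rw [e0]
    exact low (fun i p h => bd_prime p h.1) hPD i₀
  obtain ⟨c₀, X₀, hc₀, hlow⟩ := FW_low (W := fun _ => True) (bd_prime (A := A)) i₀ hL
  obtain ⟨C, X₁, hC, hup⟩ := FW_up (B := Bd A) (cl := fun p => p % 8) (τ := ty a b c) bd_prime
    (j := a + b + c - 1) (by rw [card_Ix]; omega) (fun _ => True)
  refine ⟨c₀, C, max X₀ X₁, hc₀, hC, fun X hX => ?_⟩
  have eS : FW (Bd A) (fun p => p % 8) (ty a b c) (fun _ => True) X =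
      (SS {3, 5} {0, 1} X).filter (Qs A a b c) := Finset.ext fun S => fw_iff hc
  rw [← eS]
  have h6 := hlow X ((le_max_left _ _).trans hX)
  rw [card_Ix] at h6
  exact ⟨h6, hup X ((le_max_right _ _).trans hX)⟩

end Pool.Agent.N62.FQ
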