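import Pool.Agent.N62.FQ.Tup49
import Pool.Agent.N713.ND.NS

/-!
# Quadratic twists of `X_0(49)` with a fixed number of prime factors: the sets of primes
-/

set_option autoImplicit false
set_option linter.unusedVariables false
set_option linter.unusedSectionVars false

open scoped Classical

namespace Pool.Agent.N62.FQ

open Finset Filter Topology
open Pool.Agent.V11291.FK
open Pool.Agent.N973.ND (Pr m7 uu RecA BilP HB sl am am_bd kd)

/-- more columns than rows -/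
theorem pj_eq_zero {a r s : ℕ} (h : r < s) : pj a r s = 0 := by
  unfold pj
  have e : (fun M : Sm (Fin a) (Fin r) (Fin s) => Ij M.1) = fun _ => False := by
    funext M
    refine propext ⟨fun hM => ?_, fun h => h.elim⟩
    have hinj : Function.Injective (Matrix.of M.1).mulVecLin := by
      rw [← LinearMap.ker_eq_bot, LinearMap.ker_eq_bot']
      intro x hx
      funext j
      exact hM x (fun i => congrFun hx i) j
    have h2 := LinearMap.finrank_le_finrank_of_injective hinj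
    rw [Module.finrank_fintype_fun_eq_card, Module.finrank_fintype_fun_eq_card,
      Fintype.card_sum, Fintype.card_sum, Fintype.card_fin, Fintype.card_fin, Fintype.card_fin] at h2
    omega
  rw [e]
  unfold Pool.Agent.Y759.CX.fr
  rw [Nat.card_of_isEmpty]
  simp

theorem al_eq_zero {a r s : ℕ} (h : r < s) : al a r s = 0 := by
  unfold al
  rw [pj_eq_zero h, mul_zero]

section

variable {ι : Type} [Fintype ι] [LinearOrder ι]

/-- the numbers of the primes of the types -/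
theorem card_ty_image {τ : ι → ℕ} {p : ι → ℕ} (hinj : Function.Injective p)
    (h : ∀ i, Pool.Agent.N973.ND.ty (p i) = τ i) (r : ℕ) :
    ((univ.image p).filter fun q => Pool.Agent.N973.ND.ty q = r).card = nt τ r := by
  rw [Finset.filter_image, Finset.card_image_of_injective _ hinj]
  unfold nt
  congr 1
  exact Finset.filter_congr fun i _ => by rw [h i]

/-- **The law for the tuples**, `X_0(49)`, all the cases. -/
theorem tup_law49' {A : ℕ → ℕ → ZMod 2} {C : ℝ} (hA : RecA A) (hBil : BilP A C) (b : ℕ → ZMod 2)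
    {τ : ι → ℕ} (h0 : ∃ i, τ i = 0) (h13 : Even (nt τ 1 + nt τ 3))
    {P : ι → ℕ → Prop} (hP : ∀ i p, P i p → Pr p ∧ Pool.Agent.N973.ND.ty p = τ i)
    (hD : ∀ i, Dn (P i)) :
    Tendsto (fun X : ℕ => (((Tup P X).filter fun p =>
      Pool.Agent.N973.ND.Gd A b (univ.image p)).card : ℝ) /
      ((Tup P X).card : ℝ)) atTop (𝓝 (al (nt τ 2) (nt τ 3) (nt τ 1))) := by
  rcases lt_or_ge (nt τ 3) (nt τ 1) with h | h
  · rw [al_eq_zero h]
    refine tendsto_const_nhds.congr fun X => ?_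
    have e : ((Tup P X).filter fun p => Pool.Agent.N973.ND.Gd A b (univ.image p)) = ∅ := by
      refine Finset.filter_eq_empty_iff.2 fun p hp hg => ?_
      rw [mem_Tup fun i p h => (hP i p h).1.1] at hp
      obtain ⟨h1, h2, h3⟩ := hp
      have h4 := Pool.Agent.N713.ND.NS.t_NEG A b (univ.image p) (fun q hq => by
        rw [mem_image] at hq
        obtain ⟨i, -, rfl⟩ := hq
        exact (hP i _ (h1 i)).1) hg
      unfold kd at h4
      rw [card_ty_image h2 fun i => (hP i _ (h1 i)).2,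
        card_ty_image h2 fun i => (hP i _ (h1 i)).2] at h4
      omega
    rw [e, Finset.card_empty, Nat.cast_zero, zero_div]
  · obtain ⟨m, hm⟩ := h13
    exact tup_law49 hA hBil b (m := (nt τ 3 - nt τ 1) / 2) h0 (by omega) hP hD

end

/-- the index type -/
abbrev I4 (n0 n1 n2 n3 : ℕ) : Type := Fin n0 ⊕ (Fin n1 ⊕ (Fin n2 ⊕ Fin n3))

/-- the types -/
def ty4 (n0 n1 n2 n3 : ℕ) : I4 n0 n1 n2 n3 → ℕ :=
  Sum.elim (fun _ => 0) (Sum.elim (fun _ => 1) (Sum.elim (fun _ => 2) fun _ => 3))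

theorem card_I4 (n0 n1 n2 n3 : ℕ) : Fintype.card (I4 n0 n1 n2 n3) = n0 + n1 + n2 + n3 := by
  rw [Fintype.card_sum, Fintype.card_sum, Fintype.card_sum, Fintype.card_fin, Fintype.card_fin,
    Fintype.card_fin, Fintype.card_fin]
  omega

theorem ty4_lt {n0 n1 n2 n3 : ℕ} (i : I4 n0 n1 n2 n3) : ty4 n0 n1 n2 n3 i < 4 := by
  rcases i with i | i | i | i
  · show 0 < 4; norm_num
  · show 1 < 4; norm_num
  · show 2 < 4; norm_num
  · show 3 < 4; norm_num

theorem card_ty4 (n0 n1 n2 n3 : ℕ) : nt (ty4 n0 n1 n2 n3) 0 = n0 ∧ nt (ty4 n0 n1 n2 n3) 1 = n1 ∧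
    nt (ty4 n0 n1 n2 n3) 2 = n2 ∧ nt (ty4 n0 n1 n2 n3) 3 = n3 := by
  unfold ty4 nt
  refine ⟨?_, ?_, ?_, ?_⟩
  all_goals
    rw [Finset.card_filter, Fintype.sum_sum_type, Fintype.sum_sum_type, Fintype.sum_sum_type]
    simp

/-- the property of the primes -/
def B4 (A' : ℕ → Prop) (p : ℕ) : Prop := A' p ∧ Pr p

theorem b4_prime {A' : ℕ → Prop} : ∀ p, B4 A' p → p.Prime := fun p h => h.2.1

/-- the number of the primes of the type `r` -/
def k4 (r : ℕ) (S : Finset ℕ) : ℕ := (S.filter fun p => Pool.Agent.N973.ND.ty p = r).card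

/-- the condition on the sets -/
def Q4 (A' : ℕ → Prop) (n0 n1 n2 n3 : ℕ) (S : Finset ℕ) : Prop :=
  (∀ p ∈ S, A' p) ∧ k4 0 S = n0 ∧ k4 1 S = n1 ∧ k4 2 S = n2 ∧ k4 3 S = n3

theorem fw_iff4 {A' : ℕ → Prop} {n0 n1 n2 n3 X : ℕ} [LinearOrder (I4 n0 n1 n2 n3)]
    (h13 : Even (n1 + n3)) {S : Finset ℕ} :
    S ∈ FW (B4 A') (Pool.Agent.N973.ND.ty) (ty4 n0 n1 n2 n3) (fun _ => True) X ↔
      S ∈ (Pool.Agent.N973.ND.SS X).filter (Q4 A' n0 n1 n2 n3) := by
  obtain ⟨h1, h2, h3, h4⟩ := card_ty4 n0 n1 n2 n3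
  unfold nt at h1 h2 h3 h4
  rw [mem_FW b4_prime, mem_filter]
  unfold Pool.Agent.N973.ND.SS Q4 k4
  rw [mem_filter, mem_powerset]
  constructor
  · rintro ⟨a1, a2, a3, -⟩
    have a4 := a2 0
    have a5 := a2 1
    have a6 := a2 2
    have a7 := a2 3
    rw [h1] at a4
    rw [h2] at a5
    rw [h3] at a6
    rw [h4] at a7
    refine ⟨⟨fun q hq => ?_, ⟨fun p hp => (a1 p hp).2, ?_⟩, a3⟩,
      fun p hp => (a1 p hp).1, a4, a5, a6, a7⟩
    · rw [mem_range]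
      have h5 : q ≤ ∏ r ∈ S, r := Nat.le_of_dvd
        (Finset.prod_pos fun r hr => (b4_prime r (a1 r hr)).pos) (Finset.dvd_prod_of_mem _ hq)
      omega
    · rcases Pool.Agent.N226.ND.KEY.prod_mod (fun p hp => (a1 p hp).2) with ⟨-, h⟩ | ⟨h, -⟩
      · exact h
      · exfalso
        apply h
        unfold kd
        rw [a5, a7]
        obtain ⟨m, hm⟩ := h13
        exact ⟨(n3 : ℤ) - m, by have : (n1 : ℤ) + n3 = m + m := by exact_mod_cast hm
                                linarith⟩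
  · rintro ⟨⟨b1, b2, b6⟩, b7, b8, b9, b10, b11⟩
    refine ⟨fun p hp => ⟨b7 p hp, b2.1 p hp⟩, fun r => ?_, b6, trivial⟩
    by_cases hr0 : r = 0
    · subst hr0
      rw [h1]
      exact b8
    by_cases hr1 : r = 1
    · subst hr1
      rw [h2]
      exact b9
    by_cases hr2 : r = 2
    · subst hr2
      rw [h3]
      exact b10
    by_cases hr3 : r = 3
    · subst hr3
      rw [h4]
      exact b11
    rw [Finset.card_eq_zero.2, Finset.card_eq_zero.2]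
    · refine Finset.filter_eq_empty_iff.2 fun i _ h => ?_
      have := ty4_lt i
      omega
    · refine Finset.filter_eq_empty_iff.2 fun p hp h => ?_
      have := Pool.Agent.N973.ND.ty_lt p
      omega

section law

variable {A' : ℕ → Prop} {n0 n1 n2 n3 : ℕ}

theorem dn4 (hD0 : 1 ≤ n0 → Dn fun p => A' p ∧ Pr p ∧ Pool.Agent.N973.ND.ty p = 0)
    (hD1 : 1 ≤ n1 → Dn fun p => A' p ∧ Pr p ∧ Pool.Agent.N973.ND.ty p = 1)
    (hD2 : 1 ≤ n2 → Dn fun p => A' p ∧ Pr p ∧ Pool.Agent.N973.ND.ty p = 2)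
    (hD3 : 1 ≤ n3 → Dn fun p => A' p ∧ Pr p ∧ Pool.Agent.N973.ND.ty p = 3) (i : I4 n0 n1 n2 n3) :
    Dn (PG (B4 A') (Pool.Agent.N973.ND.ty) (ty4 n0 n1 n2 n3) i) := by
  have key : ∀ (r : ℕ) (i : I4 n0 n1 n2 n3), ty4 n0 n1 n2 n3 i = r →
      (Dn fun p => A' p ∧ Pr p ∧ Pool.Agent.N973.ND.ty p = r) →
      Dn (PG (B4 A') (Pool.Agent.N973.ND.ty) (ty4 n0 n1 n2 n3) i) := by
    intro r i hi h
    have e : PG (B4 A') (Pool.Agent.N973.ND.ty) (ty4 n0 n1 n2 n3) i =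
        fun p => A' p ∧ Pr p ∧ Pool.Agent.N973.ND.ty p = r := by
      funext p
      apply propext
      unfold PG B4
      rw [hi]
      tauto
    rw [e]
    exact h
  rcases i with i | i | i | i
  · exact key 0 _ rfl (hD0 (by have := i.2; omega))
  · exact key 1 _ rfl (hD1 (by have := i.2; omega))
  · exact key 2 _ rfl (hD2 (by have := i.2; omega))
  · exact key 3 _ rfl (hD3 (by have := i.2; omega))

/-- the law for the sets of primes -/
theorem set_law49 {A : ℕ → ℕ → ZMod 2} {C : ℝ} (hA : RecA A) (hBil : BilP A C) (b : ℕ → ZMod 2)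
    (h0 : 1 ≤ n0) (h13 : Even (n1 + n3))
    (hD0 : 1 ≤ n0 → Dn fun p => A' p ∧ Pr p ∧ Pool.Agent.N973.ND.ty p = 0)
    (hD1 : 1 ≤ n1 → Dn fun p => A' p ∧ Pr p ∧ Pool.Agent.N973.ND.ty p = 1)
    (hD2 : 1 ≤ n2 → Dn fun p => A' p ∧ Pr p ∧ Pool.Agent.N973.ND.ty p = 2)
    (hD3 : 1 ≤ n3 → Dn fun p => A' p ∧ Pr p ∧ Pool.Agent.N973.ND.ty p = 3) :
    Tendsto (fun X : ℕ => (((Pool.Agent.N973.ND.SS X).filter fun S =>
      Q4 A' n0 n1 n2 n3 S ∧ Pool.Agent.N973.ND.Gd A b S).card : ℝ) /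
      (((Pool.Agent.N973.ND.SS X).filter (Q4 A' n0 n1 n2 n3)).card : ℝ)) atTop
      (𝓝 (al n2 n3 n1)) := by
  let _ : LinearOrder (I4 n0 n1 n2 n3) := LinearOrder.lift' (Fintype.equivFin (I4 n0 n1 n2 n3))
    (Fintype.equivFin (I4 n0 n1 n2 n3)).injective
  obtain ⟨h1, h2, h3, h4⟩ := card_ty4 n0 n1 n2 n3
  set P := PG (B4 A') (Pool.Agent.N973.ND.ty) (ty4 n0 n1 n2 n3) with hPd
  have hP : ∀ i p, P i p → Pr p ∧ Pool.Agent.N973.ND.ty p = ty4 n0 n1 n2 n3 i :=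
    fun i p h => ⟨h.1.2, h.2⟩
  have hPD : ∀ i, Dn (P i) := fun i => dn4 hD0 hD1 hD2 hD3 i
  have h := tup_law49' (P := P) (τ := ty4 n0 n1 n2 n3) hA hBil b ⟨Sum.inl ⟨0, h0⟩, rfl⟩
    (by rw [h2, h4]; exact h13) hP hPD
  rw [h2, h3, h4] at h
  refine h.congr fun X => ?_
  obtain ⟨m, hm, hcd⟩ := card_propG (B := B4 A') (τ := ty4 n0 n1 n2 n3)
    (cl := Pool.Agent.N973.ND.ty) b4_prime (fun _ => True) X
  have e0 : TW (B4 A') (Pool.Agent.N973.ND.ty) (ty4 n0 n1 n2 n3) (fun _ => True) X = Tup P X := by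
    unfold TW
    rw [Finset.filter_true]
  rw [e0] at hcd
  have eS : FW (B4 A') (Pool.Agent.N973.ND.ty) (ty4 n0 n1 n2 n3) (fun _ => True) X =
      (Pool.Agent.N973.ND.SS X).filter (Q4 A' n0 n1 n2 n3) := Finset.ext fun S => fw_iff4 h13
  have e1 := hcd (Pool.Agent.N973.ND.Gd A b)
  have e2 := hcd fun _ => True
  rw [Finset.filter_true, Finset.filter_true] at e2
  rw [eS] at e1 e2
  rw [Finset.filter_filter] at e1
  rw [e1, e2]
  have hm0 : (m : ℝ) ≠ 0 := by exact_mod_cast (by omega : m ≠ 0)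
  push_cast
  rw [mul_div_mul_left _ _ hm0]

/-- the number of the sets of primes -/
theorem set_size49 (h0 : 1 ≤ n0) (h13 : Even (n1 + n3))
    (hD0 : 1 ≤ n0 → Dn fun p => A' p ∧ Pr p ∧ Pool.Agent.N973.ND.ty p = 0)
    (hD1 : 1 ≤ n1 → Dn fun p => A' p ∧ Pr p ∧ Pool.Agent.N973.ND.ty p = 1)
    (hD2 : 1 ≤ n2 → Dn fun p => A' p ∧ Pr p ∧ Pool.Agent.N973.ND.ty p = 2)
    (hD3 : 1 ≤ n3 → Dn fun p => A' p ∧ Pr p ∧ Pool.Agent.N973.ND.ty p = 3) :
    ∃ (c₀ C : ℝ) (X₀ : ℕ), 0 < c₀ ∧ 0 < C ∧ ∀ X : ℕ, X₀ ≤ X →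
      c₀ * (X * Real.log (Real.log X) ^ (n0 + n1 + n2 + n3 - 1) / Real.log X) ≤
        (((Pool.Agent.N973.ND.SS X).filter (Q4 A' n0 n1 n2 n3)).card : ℝ) ∧
      (((Pool.Agent.N973.ND.SS X).filter (Q4 A' n0 n1 n2 n3)).card : ℝ) ≤
        C * (X * Real.log (Real.log X) ^ (n0 + n1 + n2 + n3 - 1) / Real.log X) := by
  let _ : LinearOrder (I4 n0 n1 n2 n3) := LinearOrder.lift' (Fintype.equivFin (I4 n0 n1 n2 n3))
    (Fintype.equivFin (I4 n0 n1 n2 n3)).injective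
  set P := PG (B4 A') (Pool.Agent.N973.ND.ty) (ty4 n0 n1 n2 n3) with hPd
  have hPD : ∀ i, Dn (P i) := fun i => dn4 hD0 hD1 hD2 hD3 i
  have hL : LowH (TW (B4 A') (Pool.Agent.N973.ND.ty) (ty4 n0 n1 n2 n3) (fun _ => True)) := by
    have e0 : TW (B4 A') (Pool.Agent.N973.ND.ty) (ty4 n0 n1 n2 n3) (fun _ => True) = Tup P := by
      funext X
      unfold TW
      rw [Finset.filter_true]
    rw [e0]
    exact low (fun i p h => b4_prime p h.1) hPD (Sum.inl ⟨0, h0⟩)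
  obtain ⟨c₀, X₀, hc₀, hlow⟩ := FW_low (W := fun _ => True) (b4_prime (A' := A'))
    (Sum.inl ⟨0, h0⟩) hL
  obtain ⟨C, X₁, hC, hup⟩ := FW_up (B := B4 A') (cl := Pool.Agent.N973.ND.ty)
    (τ := ty4 n0 n1 n2 n3) b4_prime
    (j := n0 + n1 + n2 + n3 - 1) (by rw [card_I4]; omega) (fun _ => True)
  refine ⟨c₀, C, max X₀ X₁, hc₀, hC, fun X hX => ?_⟩
  have eS : FW (B4 A') (Pool.Agent.N973.ND.ty) (ty4 n0 n1 n2 n3) (fun _ => True) X =
      (Pool.Agent.N973.ND.SS X).filter (Q4 A' n0 n1 n2 n3) := Finset.ext fun S => fw_iff4 h13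
  rw [← eS]
  have h6 := hlow X ((le_max_left _ _).trans hX)
  rw [card_I4] at h6
  exact ⟨h6, hup X ((le_max_right _ _).trans hX)⟩

end law

end Pool.Agent.N62.FQ
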