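import Pool.Agent.N62.FQ.Set
import Pool.Agent.N62.FQ.Set49
import Pool.Agent.N62.FQ.Pj
import Pool.Agent.V11291.FK.Cub3

/-!
# Quadratic twists with a fixed number of prime factors: translation
-/

set_option autoImplicit false
set_option linter.unusedVariables false
set_option linter.unusedSectionVars false

open scoped Classical

namespace Pool.Agent.N62.FQ

open Finset Filter Topology
open Pool.Agent.V11291.FK

/-- the density -/
theorem dn_iff (S : Set ℕ) : (∃ (δ : ℝ) (Y₀ : ℕ), 0 < δ ∧ ∀ Y : ℕ, Y₀ ≤ Y →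
    δ * (Y / Real.log Y) ≤ (Nat.card {p : ℕ // p ≤ Y ∧ p ∈ S} : ℝ)) ↔ Dn fun p => p ∈ S := by
  unfold Dn
  have h : ∀ Y : ℕ, Nat.card {p : ℕ // p ≤ Y ∧ p ∈ S} = ((range (Y + 1)).filter fun p => p ∈ S).card := by
    intro Y
    rw [← Fintype.card_coe, ← Nat.card_eq_fintype_card]
    refine Nat.card_congr (Equiv.subtypeEquivRight fun p => ?_)
    rw [Finset.mem_filter, Finset.mem_range, Nat.lt_succ_iff]
  simp only [h]

/-- the number of the elements of a finite set given by a condition -/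
theorem card_of_iff {α : Type} (F : Finset α) (Q : α → Prop) (h : ∀ x, x ∈ F ↔ Q x) :
    Nat.card {x // Q x} = F.card := by
  rw [← Fintype.card_coe, ← Nat.card_eq_fintype_card]
  exact Nat.card_congr (Equiv.subtypeEquivRight fun x => (h x).symm)

theorem tuples_card {k : ℕ} (S : Fin k → Set ℕ) (hS : ∀ i, ∀ p ∈ S i, p.Prime) (Q : ℕ → Prop)
    (X : ℕ) : Nat.card {p : Fin k → ℕ //
      ((∀ i, p i ∈ S i) ∧ Function.Injective p ∧ ∏ i, p i ≤ X) ∧ Q (∏ i, p i)} =
      ((Tup (fun i p => p ∈ S i) X).filter fun p => Q (∏ i, p i)).card := by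
  refine card_of_iff _ _ fun p => ?_
  rw [mem_filter, mem_Tup hS]

theorem tuples_card_true {k : ℕ} (S : Fin k → Set ℕ) (hS : ∀ i, ∀ p ∈ S i, p.Prime)
    (X : ℕ) : Nat.card {p : Fin k → ℕ //
      ((∀ i, p i ∈ S i) ∧ Function.Injective p ∧ ∏ i, p i ≤ X) ∧ True} =
      (Tup (fun i p => p ∈ S i) X).card := by
  refine card_of_iff _ _ fun p => ?_
  rw [mem_Tup hS, and_true]

/-- the product of different primes -/
theorem prod_facts {k : ℕ} {p : Fin k → ℕ} (hp : ∀ i, (p i).Prime) (hinj : Function.Injective p) :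
    Squarefree (∏ i, p i) ∧ (∏ i, p i).primeFactors = univ.image p := by
  have hprod : ∏ q ∈ univ.image p, q = ∏ i, p i := Finset.prod_image fun a _ b _ h => hinj h
  have hpr : ∀ q ∈ univ.image p, q.Prime := by
    intro q hq
    rw [mem_image] at hq
    obtain ⟨i, -, rfl⟩ := hq
    exact hp i
  rw [← hprod]
  refine ⟨?_, Nat.primeFactors_prod hpr⟩
  refine Finset.squarefree_prod_of_pairwise_isCoprime (fun p hp q hq hpq => ?_)
    fun p hp => (hpr p hp).squarefree
  show IsRelPrime p q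
  rw [← Nat.coprime_iff_isRelPrime]
  exact (Nat.coprime_primes (hpr p hp) (hpr q hq)).mpr hpq

/-- **the law for the tuples, abstractly** -/
theorem law_of {k : ℕ} (hk : 1 ≤ k) (S : Fin k → Set ℕ) (hS : ∀ i, ∀ p ∈ S i, p.Prime)
    (hD : ∀ i, Dn fun p => p ∈ S i) (Q : ℕ → Prop) (G : Finset ℕ → Prop) (α : ℝ)
    (hQ : ∀ p : Fin k → ℕ, (∀ i, p i ∈ S i) → Function.Injective p →
      (Q (∏ i, p i) ↔ G (univ.image p)))
    (hlaw : Tendsto (fun X : ℕ => (((Tup (fun i p => p ∈ S i) X).filter fun p =>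
      G (univ.image p)).card : ℝ) / ((Tup (fun i p => p ∈ S i) X).card : ℝ)) atTop (𝓝 α)) :
    (∃ (c C : ℝ) (X₀ : ℕ), 0 < c ∧ 0 < C ∧ ∀ X : ℕ, X₀ ≤ X →
      c * (X * Real.log (Real.log X) ^ (k - 1) / Real.log X) ≤ ((Nat.card {p : Fin k → ℕ //
        ((∀ i, p i ∈ S i) ∧ Function.Injective p ∧ ∏ i, p i ≤ X) ∧ True} : ℕ) : ℝ) ∧
      ((Nat.card {p : Fin k → ℕ //
        ((∀ i, p i ∈ S i) ∧ Function.Injective p ∧ ∏ i, p i ≤ X) ∧ True} : ℕ) : ℝ) ≤
        C * (X * Real.log (Real.log X) ^ (k - 1) / Real.log X)) ∧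
    Tendsto (fun X : ℕ => ((Nat.card {p : Fin k → ℕ //
        ((∀ i, p i ∈ S i) ∧ Function.Injective p ∧ ∏ i, p i ≤ X) ∧ Q (∏ i, p i)} : ℕ) : ℝ) /
      ((Nat.card {p : Fin k → ℕ //
        ((∀ i, p i ∈ S i) ∧ Function.Injective p ∧ ∏ i, p i ≤ X) ∧ True} : ℕ) : ℝ)) atTop (𝓝 α) := by
  simp only [tuples_card_true S hS, tuples_card S hS Q]
  refine ⟨?_, ?_⟩
  · exact tup_size (P := fun i p => p ∈ S i) hS hD (j := k - 1)
      (by rw [Fintype.card_fin]; omega)
  · refine hlaw.congr fun X => ?_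
    congr 3
    refine Finset.filter_congr fun p hp => ?_
    rw [mem_Tup hS] at hp
    exact (hQ p hp.1 hp.2.1).symm

/-- `sp` -/
theorem sp_eq (a : ℕ) : Pool.Agent.Y219.CQ.sp a =
    ∏ i ∈ range ((a + 1) / 2), (1 - (1 / 2 : ℝ) ^ (2 * i + 1)) := rfl

/-- there are matrices with independent columns -/
theorem pj_pos {a r s : ℕ} (h : s ≤ r) : 0 < pj a r s := by
  unfold pj Pool.Agent.Y759.CX.fr
  have hM : ∀ i j : Fin a, (if i = j then (1 : ZMod 2) else 0) = if j = i then 1 else 0 := by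
    intro i j
    by_cases hij : i = j
    · rw [if_pos hij, if_pos hij.symm]
    · rw [if_neg hij, if_neg fun h => hij h.symm]
  let M : Sm (Fin a) (Fin r) (Fin s) := ⟨Sum.elim (fun i => Sum.elim (fun j => if i = j then 1 else 0)
    fun _ => 0) (fun i => Sum.elim (fun _ => 0) fun j => if i.val = j.val then 1 else 0), hM⟩
  have hIj : Ij M.1 := by
    intro x hx j
    rcases j with j | j
    · have h1 := hx (Sum.inl j)
      rw [Fintype.sum_sum_type] at h1
      have e1 : ∀ j', M.1 (Sum.inl j) (Sum.inl j') * x (Sum.inl j') =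
          if j = j' then x (Sum.inl j) else 0 := by
        intro j'
        show (if j = j' then (1 : ZMod 2) else 0) * _ = _
        by_cases h2 : j = j'
        · subst h2
          rw [if_pos rfl, if_pos rfl, one_mul]
        · rw [if_neg h2, if_neg h2, zero_mul]
      have e2 : ∀ j', M.1 (Sum.inl j) (Sum.inr j') * x (Sum.inr j') = 0 := by
        intro j'
        show (0 : ZMod 2) * _ = 0
        rw [zero_mul]
      rw [Finset.sum_congr rfl fun j' _ => e1 j', Finset.sum_congr rfl fun j' _ => e2 j',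
        Finset.sum_const_zero, add_zero, Finset.sum_ite_eq, if_pos (mem_univ _)] at h1
      exact h1
    · have h1 := hx (Sum.inr ⟨j.val, lt_of_lt_of_le j.2 h⟩)
      rw [Fintype.sum_sum_type] at h1
      have e1 : ∀ j', M.1 (Sum.inr ⟨j.val, lt_of_lt_of_le j.2 h⟩) (Sum.inr j') * x (Sum.inr j') =
          if j = j' then x (Sum.inr j) else 0 := by
        intro j'
        show (if j.val = j'.val then (1 : ZMod 2) else 0) * _ = _
        by_cases h2 : j = j'
        · subst h2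
          rw [if_pos rfl, if_pos rfl, one_mul]
        · rw [if_neg fun h3 => h2 (Fin.ext h3), if_neg h2, zero_mul]
      have e2 : ∀ j', M.1 (Sum.inr ⟨j.val, lt_of_lt_of_le j.2 h⟩) (Sum.inl j') *
          x (Sum.inl j') = 0 := by
        intro j'
        show (0 : ZMod 2) * _ = 0
        rw [zero_mul]
      rw [Finset.sum_congr rfl fun j' _ => e1 j', Finset.sum_congr rfl fun j' _ => e2 j',
        Finset.sum_const_zero, zero_add, Finset.sum_ite_eq, if_pos (mem_univ _)] at h1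
      exact h1
  have hne : Nonempty {g : Sm (Fin a) (Fin r) (Fin s) // Ij g.1} := ⟨⟨M, hIj⟩⟩
  have h1 : 0 < Nat.card {g : Sm (Fin a) (Fin r) (Fin s) // Ij g.1} := Nat.card_pos
  have h2 : 0 < Nat.card (Sm (Fin a) (Fin r) (Fin s)) := Nat.card_pos
  positivity

/-- the residue classes -/
theorem dn_class {m t : ℕ} (hm : 1 ≤ m) (ht : Nat.Coprime t m) :
    Dn fun p => p ∈ {p : ℕ | p.Prime ∧ p % m = t % m} :=
  Pool.Agent.V11291.FK.Cb.pai_low' m hm t ht

end Pool.Agent.N62.FQ
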