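import Pool.Agent.V11291.FK.Gen
import Pool.Agent.Y710.CQ.BIL
import Pool.Agent.Y356.CQ.EQ
import Pool.Agent.Y839.CQ.SYM

/-!
# Quadratic twists with a fixed number of prime factors: the tuples

The general engine is `Pool.Agent.V11291.FK` (boxes, exceptional tuples, lower bound); here it is applied
to the symmetric matrices over `𝔽₂` of project CQ.
-/

set_option autoImplicit false
set_option linter.unusedVariables false
set_option linter.unusedSectionVars false

open scoped Classical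

namespace Pool.Agent.N62.FQ

open Finset Filter Topology
open Pool.Agent.V11291.FK
open Pool.Agent.Y703.CQ (Sp In Cl Gd Ok SS)
open Pool.Agent.Y219.CQ (sp)

/-- the primes of the kind `r = 1, 3, 5` -/
def Kd (r p : ℕ) : Prop := (Sp p ∨ In {3, 5} p) ∧ p % 8 = r

theorem Kd.prime {r p : ℕ} (h : Kd r p) : p.Prime := by
  rcases h.1 with h1 | h1
  · exact h1.1
  · exact h1.1

variable {ι : Type} [Fintype ι] [LinearOrder ι]

/-- the indices of the split primes -/
def J1 (τ : ι → ℕ) : Finset ι := univ.filter fun i => τ i = 1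

/-- the conditions on the types -/
def Tyok (τ : ι → ℕ) : Prop := Even (univ.filter fun i => τ i = 5).card ∧ ∃ i, τ i ≠ 1

theorem boxH {P : ι → ℕ → Prop} {τ : ι → ℕ} (hP : ∀ i p, P i p → Kd (τ i) p) (h1 : ∃ i, τ i ≠ 1)
    (f : ℕ → ZMod 2) : BoxH (Tup P) (fun p => Gd f (univ.image p)) (sp (J1 τ).card) := by
  obtain ⟨C, hC, h⟩ := sum_boxes Pool.Agent.Y839.CQ.t_SYM Pool.Agent.Y356.CQ.t_EQ
    Pool.Agent.Y710.CQ.t_BIL (J1 τ) (by
      obtain ⟨i, hi⟩ := h1
      refine ⟨i, fun hm => hi ?_⟩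
      unfold J1 at hm
      rw [mem_filter] at hm
      exact hm.2)
  refine ⟨2 ^ (Fintype.card ι + Fintype.card ι ^ 2), C, by positivity, hC, ?_⟩
  intro X z H N κ hH hz hκ hκz hN
  refine h P f X z H N κ (fun i p hp => ?_) hH hz hκ hκz hN
  have h2 := hP i p hp
  refine ⟨h2.prime, ?_, ?_⟩
  · rintro rfl
    rcases h2.1 with h3 | h3
    · have := h3.2.1
      omega
    · have := h3.2.2.1
      revert this
      decide
  · unfold J1
    rw [mem_filter]
    constructor
    · rintro ⟨-, h3⟩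
      rw [h2.2, h3]
    · intro h3
      exact ⟨mem_univ _, by rw [← h2.2, h3]⟩

theorem cl_tup {P : ι → ℕ → Prop} {τ : ι → ℕ} (hP : ∀ i p, P i p → Kd (τ i) p)
    (h5 : Even (univ.filter fun i => τ i = 5).card) {p : ι → ℕ} (hp : ∀ i, P i (p i))
    (hinj : Function.Injective p) : Cl {3, 5} {0, 1} (univ.image p) := by
  refine ⟨fun q hq => ?_, ?_, ?_⟩
  · rw [mem_image] at hq
    obtain ⟨i, -, rfl⟩ := hq
    exact (hP i _ (hp i)).1
  · rw [Finset.filter_image, Finset.card_image_of_injective _ hinj]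
    have e : (univ.filter fun i => p i % 8 = 5) = univ.filter fun i => τ i = 5 :=
      Finset.filter_congr fun i _ => by rw [(hP i _ (hp i)).2]
    rw [e]
    exact Nat.even_iff.1 h5
  · rcases Nat.mod_two_eq_zero_or_one ((univ.image p).filter fun q => q % 8 = 3).card with h | h
    · rw [h]; decide
    · rw [h]; decide

theorem excH {P : ι → ℕ → Prop} {τ : ι → ℕ} (hP : ∀ i p, P i p → Kd (τ i) p)
    (h5 : Even (univ.filter fun i => τ i = 5).card) {j : ℕ} (hj : Fintype.card ι = j + 1) :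
    ExcH (Tup P) j := by
  intro X z H hX hH
  exact exc_le (I := {3, 5}) (K := {0, 1}) ⟨Or.inr rfl, Or.inl (by decide)⟩ hj
    (fun i p h => (hP i p h).prime) (fun p hp hinj => cl_tup hP h5 hp hinj) hX hH

/-- the size of the set of the tuples -/
theorem tup_size {P : ι → ℕ → Prop} (hP : ∀ i p, P i p → p.Prime) (hD : ∀ i, Dn (P i)) {j : ℕ}
    (hj : Fintype.card ι = j + 1) :
    ∃ (c C : ℝ) (X₀ : ℕ), 0 < c ∧ 0 < C ∧ ∀ X : ℕ, X₀ ≤ X →
      c * (X * Real.log (Real.log X) ^ j / Real.log X) ≤ ((Tup P X).card : ℝ) ∧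
      ((Tup P X).card : ℝ) ≤ C * (X * Real.log (Real.log X) ^ j / Real.log X) := by
  have hne : Nonempty ι := by
    rw [← Fintype.card_pos_iff, hj]
    omega
  obtain ⟨i₀⟩ := hne
  obtain ⟨c, X₁, hc, hlow⟩ := low hP hD i₀
  rw [hj, Nat.add_sub_cancel] at hlow
  obtain ⟨M, hM⟩ := exists_MH
  obtain ⟨C₁, hC₁, hAA⟩ := card_AA hM j
  have t3 : Tendsto (fun X : ℕ => Real.log (Real.log (X : ℝ))) atTop atTop :=
    Real.tendsto_log_atTop.comp (Real.tendsto_log_atTop.comp tendsto_natCast_atTop_atTop)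
  obtain ⟨X₀, hX₀⟩ := eventually_atTop.1 ((eventually_ge_atTop 3).and
    (t3.eventually_ge_atTop (max 1 M)))
  refine ⟨c, ((j + 1 : ℕ) : ℝ) ^ (j + 1) * (C₁ * 2 ^ j), max X₀ X₁, hc, by positivity,
    fun X hX => ⟨hlow X ((le_max_right _ _).trans hX), ?_⟩⟩
  obtain ⟨h3, hll⟩ := hX₀ X ((le_max_left _ _).trans hX)
  have hX1 : (1 : ℝ) < X := by exact_mod_cast (by omega : 1 < X)
  have hl : 0 < Real.log X := Real.log_pos hX1
  have h1 := card_le_image (Tup P X) (fun p hp => ((mem_Tup hP).1 hp).2.1) (AA (j + 1) X)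
    (fun p hp => by
      rw [mem_Tup hP] at hp
      rw [mem_AA]
      refine ⟨fun q hq => ?_, ?_, ?_⟩
      · rw [mem_image] at hq
        obtain ⟨i, -, rfl⟩ := hq
        exact hP i _ (hp.1 i)
      · rw [Finset.card_image_of_injective _ hp.2.1, Finset.card_univ, hj]
      · rw [Finset.prod_image fun a _ b _ h => hp.2.1 h]
        exact hp.2.2)
  rw [hj] at h1
  have h1' : ((Tup P X).card : ℝ) ≤ ((j + 1 : ℕ) : ℝ) ^ (j + 1) * ((AA (j + 1) X).card : ℝ) := by
    exact_mod_cast h1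
  refine h1'.trans ?_
  rw [mul_assoc]
  refine mul_le_mul_of_nonneg_left ?_ (by positivity)
  refine (hAA X (by omega)).trans ?_
  have h2 : LL M X ≤ 2 * Real.log (Real.log X) := by
    unfold LL
    have := (le_max_right 1 M).trans hll
    linarith
  have h4 : 0 ≤ LL M X := by linarith [one_le_LL hM.1 (show 2 ≤ X by omega)]
  have h5 : LL M X ^ j ≤ (2 * Real.log (Real.log X)) ^ j := pow_le_pow_left₀ h4 h2 j
  calc C₁ * (X * LL M X ^ j / Real.log X) ≤
      C₁ * (X * (2 * Real.log (Real.log X)) ^ j / Real.log X) := by gcongr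
    _ = _ := by
        rw [mul_pow]
        ring

/-- the limit for a single inert prime -/
theorem gd_triv {P : ι → ℕ → Prop} {τ : ι → ℕ} (hP : ∀ i p, P i p → Kd (τ i) p)
    (h1 : ∀ i, τ i ≠ 1) (f : ℕ → ZMod 2) {p : ι → ℕ} (hp : ∀ i, P i (p i)) :
    Gd f (univ.image p) := by
  intro x _ q hq hq1
  rw [mem_image] at hq
  obtain ⟨i, -, rfl⟩ := hq
  exact absurd ((hP i _ (hp i)).2.symm.trans hq1) (h1 i)

/-- **The law for the tuples.** -/
theorem tup_law {P : ι → ℕ → Prop} {τ : ι → ℕ} (hP : ∀ i p, P i p → Kd (τ i) p) (hτ : Tyok τ)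
    (hD : ∀ i, Dn (P i)) (f : ℕ → ZMod 2) :
    Tendsto (fun X : ℕ => (((Tup P X).filter fun p => Gd f (univ.image p)).card : ℝ) /
      ((Tup P X).card : ℝ)) atTop (𝓝 (sp (J1 τ).card)) := by
  obtain ⟨h5, i₀, hi₀⟩ := hτ
  have hPp : ∀ i p, P i p → p.Prime := fun i p h => (hP i p h).prime
  have hcard : 1 ≤ Fintype.card ι := Fintype.card_pos_iff.2 ⟨i₀⟩
  have hsp0 : ∀ n : ℕ, 0 ≤ sp n ∧ sp n ≤ 1 := by
    intro n
    unfold Pool.Agent.Y219.CQ.sp
    have h1 : ∀ i ∈ range ((n + 1) / 2), 0 ≤ (1 - (1 / 2 : ℝ) ^ (2 * i + 1)) := by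
      intro i _
      have : (1 / 2 : ℝ) ^ (2 * i + 1) ≤ 1 := pow_le_one₀ (by norm_num) (by norm_num)
      linarith
    refine ⟨Finset.prod_nonneg h1, Finset.prod_le_one h1 fun i _ => ?_⟩
    have : (0 : ℝ) ≤ (1 / 2 : ℝ) ^ (2 * i + 1) := by positivity
    linarith
  by_cases hc : Fintype.card ι = 1
  · -- a single inert prime
    have hs : Subsingleton ι := Fintype.card_le_one_iff_subsingleton.1 hc.le
    have hall : ∀ i, τ i ≠ 1 := fun i => by rw [Subsingleton.elim i i₀]; exact hi₀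
    have hJ : (J1 τ).card = 0 := by
      rw [Finset.card_eq_zero]
      unfold J1
      exact Finset.filter_eq_empty_iff.2 fun i _ => hall i
    obtain ⟨c, C, X₀, hc0, -, hsz⟩ := tup_size hPp hD (j := 0) (by rw [hc])
    rw [hJ]
    have hs0 : sp 0 = 1 := by
      unfold Pool.Agent.Y219.CQ.sp
      simp
    rw [hs0]
    refine tendsto_const_nhds.congr' ?_
    have t3 : Tendsto (fun X : ℕ => Real.log (X : ℝ)) atTop atTop :=
      Real.tendsto_log_atTop.comp tendsto_natCast_atTop_atTop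
    filter_upwards [eventually_ge_atTop X₀, eventually_ge_atTop 3] with X hX hX3
    have hX1 : (1 : ℝ) < X := by exact_mod_cast (by omega : 1 < X)
    have hl : 0 < Real.log X := Real.log_pos hX1
    have h4 := (hsz X hX).1
    have h6 : (0 : ℝ) < ((Tup P X).card : ℝ) := by
      refine lt_of_lt_of_le ?_ h4
      positivity
    have h7 : ((Tup P X).filter fun p => Gd f (univ.image p)) = Tup P X := by
      refine Finset.filter_true_of_mem fun p hp => ?_
      exact gd_triv hP hall f ((mem_Tup hPp).1 hp).1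
    rw [h7, div_self h6.ne']
  · obtain ⟨j, hj⟩ : ∃ j, Fintype.card ι = j + 2 := ⟨Fintype.card ι - 2, by omega⟩
    exact law_abs hj (hsp0 _).1 (hsp0 _).2 (boxH hP ⟨i₀, hi₀⟩ f) (excH hP h5 hj) (low hPp hD i₀)

end Pool.Agent.N62.FQ
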