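import Pool.Agent.N62.FQ.Abs24
import Pool.Agent.N62.FQ.BOXe
import Pool.Agent.N62.FQ.Tup
import Pool.Agent.N226.ND.KEY
import Pool.Agent.N713.ND.CNT

/-!
# Quadratic twists of `X_0(49)` with a fixed number of prime factors: the tuples

After `Pool.Agent.V11291.FK.Tup` and `Pool.Agent.N973.ND`.
-/

set_option autoImplicit false
set_option linter.unusedVariables false
set_option linter.unusedSectionVars false

open scoped Classical

namespace Pool.Agent.N62.FQ

open Finset Filter Topology
open Pool.Agent.V11291.FK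
open Pool.Agent.N973.ND (Pr ty m7 uu RecA BilP HB sl Gd SA am am_bd Gv Wk Zk GR)
open Pool.Agent.Y703.CX (sm la jj XX)
open Pool.Agent.Y703.CQ.K302 (le_XX)
open Pool.Agent.Y703.CQ (nr sg)
open Pool.Agent.Y759.CX (fr fr_nonneg fr_le_one)

theorem al_nonneg (a r s : ℕ) : 0 ≤ al a r s := mul_nonneg (am_bd _).1 (fr_nonneg _)

theorem al_le_one (a r s : ℕ) : al a r s ≤ 1 := by
  have h1 := am_bd ((r - s) / 2)
  have h2 : pj a r s ≤ 1 := fr_le_one _
  have h3 : 0 ≤ pj a r s := fr_nonneg _
  unfold al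
  calc am ((r - s) / 2) * pj a r s ≤ 1 * 1 := mul_le_mul h1.2 h2 h3 zero_le_one
    _ = 1 := one_mul 1

variable {ι : Type} [Fintype ι] [LinearOrder ι]

/-- the number of the indices with the type `r` -/
def nt (τ : ι → ℕ) (r : ℕ) : ℕ := (univ.filter fun i => τ i = r).card

theorem sl_card (J1 : Finset ι) : (sl J1).card ≤ 2 * Fintype.card ι ^ 2 := by
  refine (Finset.card_le_univ _).trans ?_
  rw [Fintype.card_prod, Fintype.card_prod, Fintype.card_bool, pow_two]
  omega

/-- **The sum over the boxes.** -/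
theorem sum_boxes49 {A : ℕ → ℕ → ZMod 2} {C : ℝ} (hA : RecA A) (hBil : BilP A C) (b : ℕ → ZMod 2)
    (τ : ι → ℕ) (m : ℕ) (h0 : ∃ i, τ i = 0) (h31 : nt τ 3 = nt τ 1 + 2 * m)
    (P : ι → ℕ → Prop) (X z H N : ℕ) (κ : ℝ)
    (hP : ∀ i p, P i p → Pr p ∧ ty p = τ i)
    (hH : 1 ≤ H) (hz : 1 ≤ z) (hκ : 0 ≤ κ) (hκz : C ≤ κ ^ 24 * z) (hN : (H : ℝ) * Real.log X < N) :
    |(((Tup P X).filter fun p => ¬ Exc X z H p ∧ Gd A b (univ.image p)).card : ℝ) -
        al (nt τ 2) (nt τ 3) (nt τ 1) * (((Tup P X).filter fun p => ¬ Exc X z H p).card : ℝ)| ≤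
      (N : ℝ) ^ Fintype.card ι * (2 ^ (Fintype.card ι + 2 * Fintype.card ι ^ 2) * (κ * X)) := by
  obtain ⟨hC, hB⟩ := hBil
  have hPp : ∀ i p, P i p → p.Prime := fun i p h => (hP i p h).1.1
  have hz0 : (0 : ℝ) < z := by exact_mod_cast hz
  -- the value in a box
  set B : Finset (ι → ℕ) := Fintype.piFinset fun _ : ι => range N with hBd
  have hmem : ∀ p ∈ Tup P X, (fun i => jj H (p i)) ∈ B := by
    intro p hp
    rw [mem_Tup hPp] at hp
    rw [hBd, Fintype.mem_piFinset]
    intro i
    rw [mem_range]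
    have hp0 := (hPp i _ (hp.1 i)).pos
    have hqX : p i ≤ X := by
      refine le_trans ?_ hp.2.2
      exact Nat.le_of_dvd (Finset.prod_pos fun j _ => (hPp j _ (hp.1 j)).pos)
        (Finset.dvd_prod_of_mem _ (mem_univ i))
    have h3 : ((jj H (p i) : ℕ) : ℝ) < N := by
      refine lt_of_le_of_lt (Nat.floor_le (mul_nonneg (Nat.cast_nonneg _)
        (Real.log_nonneg (by exact_mod_cast hp0)))) ?_
      refine lt_of_le_of_lt ?_ hN
      refine mul_le_mul_of_nonneg_left ?_ (Nat.cast_nonneg _)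
      exact Real.log_le_log (by exact_mod_cast hp0) (by exact_mod_cast hqX)
    exact_mod_cast h3
  have hfib : ∀ T : (ι → ℕ) → Prop,
      (((Tup P X).filter fun p => ¬ Exc X z H p ∧ T p).card : ℝ) =
      ∑ b ∈ B, ((((Tup P X).filter fun p => ¬ Exc X z H p ∧
        (fun i => jj H (p i)) = b).filter T).card : ℝ) := by
    intro T
    rw [Finset.card_eq_sum_card_fiberwise (f := fun (p : ι → ℕ) (i : ι) => jj H (p i))
      (t := B) (fun p hp => by
        rw [mem_coe, mem_filter] at hp
        exact mem_coe.2 (hmem p hp.1))]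
    push_cast
    refine Finset.sum_congr rfl fun b _ => ?_
    congr 2
    ext p
    simp only [mem_filter]
    tauto
  have hf1 := hfib fun p => Gd A b (univ.image p)
  have hf2 := hfib fun _ => True
  simp only [and_true, Finset.filter_true] at hf2
  rw [hf1, hf2, Finset.mul_sum, ← Finset.sum_sub_distrib]
  refine (Finset.abs_sum_le_sum_abs _ _).trans ?_
  have hbox : ∀ c ∈ B, |((((Tup P X).filter fun p => ¬ Exc X z H p ∧
        (fun i => jj H (p i)) = c).filter fun p => Gd A b (univ.image p)).card : ℝ) -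
      al (nt τ 2) (nt τ 3) (nt τ 1) * (((Tup P X).filter fun p => ¬ Exc X z H p ∧
        (fun i => jj H (p i)) = c).card : ℝ)| ≤
      2 ^ (Fintype.card ι + 2 * Fintype.card ι ^ 2) * (κ * X) := by
    intro c' _
    by_cases hb : Function.Injective c' ∧ ∏ i, XX H (c' i) ≤ X
    · rw [fib_eq hPp hH hb.1 hb.2]
      have hmb : ∀ i, ∀ p ∈ bx P z H c' i, P i p ∧ jj H p = c' i ∧ z < p ∧ p ≤ XX H (c' i) := by
        intro i p hp
        unfold bx at hp
        rw [mem_filter, mem_Icc] at hp
        exact ⟨hp.2.1, hp.2.2.1, hp.2.2.2, hp.1.2⟩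
      have hdis : ∀ i l, i ≠ l → Disjoint (bx P z H c' i) (bx P z H c' l) := by
        intro i l hil
        rw [Finset.disjoint_left]
        intro p hp hp'
        exact hil (hb.1 ((hmb i p hp).2.1.symm.trans (hmb l p hp').2.1))
      have h1 := box49 A b τ (bx P z H c') (fun i => XX H (c' i)) κ m hA hκ
        (fun i => by
          refine (Finset.card_filter_le _ _).trans ?_
          rw [Nat.card_Icc]
          omega)
        (by
          intro i l hil α β c d hαβ hβ hc hd
          have hk0 : (0 : ℝ) ≤ κ * ((XX H (c' i) : ℝ) * (XX H (c' l) : ℝ)) := by positivity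
          rcases (bx P z H c' i).eq_empty_or_nonempty with he | ⟨p₀, hp₀⟩
          · rw [he, Finset.sum_empty, norm_zero]
            exact hk0
          rcases (bx P z H c' l).eq_empty_or_nonempty with he | ⟨q₀, hq₀⟩
          · rw [he]
            simp only [Finset.sum_empty, Finset.sum_const_zero, norm_zero]
            exact hk0
          have hzi : z ≤ XX H (c' i) := by
            have := hmb i p₀ hp₀
            omega
          have hzl : z ≤ XX H (c' l) := by
            have := hmb l q₀ hq₀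
            omega
          have h3 := hB (bx P z H c' i) (bx P z H c' l) (XX H (c' i)) (XX H (c' l)) z c d α β
            (fun p hp => by
              have h4 := hmb i p hp
              exact ⟨(hP i p h4.1).1, h4.2.2.2⟩)
            (fun p hp => by
              have h4 := hmb l p hp
              exact ⟨(hP l p h4.1).1, h4.2.2.2⟩)
            (hdis i l hil) hαβ (fun h => by
              obtain ⟨h5, h6⟩ := hβ h
              rw [mem_filter] at h5 h6
              constructor
              · intro p hp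
                have h7 := (hP i p (hmb i p hp).1).2
                exact (Pool.Agent.N973.ND.ty_eq_two p).1 (by rw [h7]; exact h5.2)
              · intro p hp
                have h7 := (hP l p (hmb l p hp).1).2
                exact (Pool.Agent.N973.ND.ty_eq_two p).1 (by rw [h7]; exact h6.2))
            hz hzi hzl hc hd
          exact Pool.Agent.N226.ND.KEY.root24 (norm_nonneg _) hκ (Nat.cast_nonneg _)
            (Nat.cast_nonneg _) hz0 h3 hκz)
        (fun i p hp => hP i p (hmb i p hp).1) hdis h0 h31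
      refine h1.trans ?_
      have h2 : ∏ j, ((XX H (c' j) : ℕ) : ℝ) ≤ X := by exact_mod_cast hb.2
      have h3 := sl_card (univ.filter fun i : ι => τ i = 2 ∨ τ i = 3)
      have h4 : κ * ∏ j, ((XX H (c' j) : ℕ) : ℝ) ≤ κ * X := mul_le_mul_of_nonneg_left h2 hκ
      have h5 : (0 : ℝ) ≤ κ * ∏ j, ((XX H (c' j) : ℕ) : ℝ) :=
        mul_nonneg hκ (Finset.prod_nonneg fun j _ => by positivity)
      refine mul_le_mul ?_ h4 h5 (by positivity)
      exact pow_le_pow_right₀ (by norm_num) (by omega)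
    · rw [fib_empty hb]
      simp only [Finset.filter_empty, Finset.card_empty, Nat.cast_zero, mul_zero, sub_zero, abs_zero]
      positivity
  refine (Finset.sum_le_sum hbox).trans ?_
  rw [Finset.sum_const, nsmul_eq_mul, hBd, Fintype.card_piFinset]
  simp only [Finset.card_range, Finset.prod_const, Finset.card_univ]
  push_cast
  exact le_rfl

/-- the number of the exceptional tuples -/
theorem excH49 {P : ι → ℕ → Prop} (hP : ∀ i p, P i p → Pr p) {j : ℕ} (hj : Fintype.card ι = j + 1) :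
    ExcH (Tup P) j := by
  have hcnt := Pool.Agent.N713.ND.CNT.t_CNT
  refine exc_abs hj SA (fun X p hp => ?_) (fun X z H hX hH => hcnt.cut X z H _ hX hH)
    (fun X z H hX hH => hcnt.coll X z H hX hH)
  rw [mem_Tup fun i p h => (hP i p h).1] at hp
  obtain ⟨h1, h2, h3⟩ := hp
  refine ⟨fun i => (hP i _ (h1 i)).1, h2, h3, ?_⟩
  have hprod : ∏ q ∈ univ.image p, q = ∏ i, p i := Finset.prod_image fun a _ b _ h => h2 h
  have hpr : ∀ q ∈ univ.image p, Pr q := by
    intro q hq
    rw [mem_image] at hq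
    obtain ⟨i, -, rfl⟩ := hq
    exact hP i _ (h1 i)
  unfold SA
  rw [mem_filter, mem_powerset]
  refine ⟨fun q hq => ?_, hpr, by rw [hprod]; exact h3⟩
  rw [mem_range]
  have h5 : q ≤ ∏ r ∈ univ.image p, r := Nat.le_of_dvd
    (Finset.prod_pos fun r hr => (hpr r hr).1.pos) (Finset.dvd_prod_of_mem _ hq)
  rw [hprod] at h5
  omega

theorem pj_zero : pj 0 0 0 = 1 := by
  unfold pj
  have h : (fun M : Sm (Fin 0) (Fin 0) (Fin 0) => Ij M.1) = fun _ => True := by
    funext M
    refine propext ⟨fun _ => trivial, fun _ x _ j => ?_⟩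
    rcases j with j | j
    · exact j.elim0
    · exact j.elim0
  rw [h]
  unfold Pool.Agent.Y759.CX.fr
  rw [Nat.card_congr (Equiv.subtypeUnivEquiv fun _ => trivial)]
  exact div_self (by
    have : Nat.card (Sm (Fin 0) (Fin 0) (Fin 0)) ≠ 0 := Nat.card_pos.ne'
    exact_mod_cast this)

theorem al_zero : al 0 0 0 = 1 := by
  unfold al
  rw [pj_zero]
  unfold Pool.Agent.N973.ND.am
  simp

/-- a set of inert primes `1` modulo `4` is good -/
theorem gd_triv49 (A : ℕ → ℕ → ZMod 2) (b : ℕ → ZMod 2) {S : Finset ℕ} (h : ∀ p ∈ S, ty p = 0) :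
    Gd A b S := by
  unfold Pool.Agent.N973.ND.Gd Pool.Agent.N973.ND.GR Pool.Agent.N973.ND.Gv
  refine ⟨fun x hx j => ?_, fun s hs _ j => ?_⟩
  · apply hx.1
    rw [mem_filter]
    rintro ⟨-, h1⟩
    have h1' : ty (j : ℕ) = 2 ∨ ty (j : ℕ) = 1 := h1
    have h3 : ty (j : ℕ) = 0 := h _ j.2
    omega
  · apply hs.1
    rw [mem_filter]
    rintro ⟨-, h1⟩
    have h2 : ty (j : ℕ) = 2 ∨ ty (j : ℕ) = 3 := (Pool.Agent.N973.ND.ty_eq_two (j : ℕ)).2 h1
    have h3 : ty (j : ℕ) = 0 := h _ j.2
    omega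

/-- **The law for the tuples**, `X_0(49)`. -/
theorem tup_law49 {A : ℕ → ℕ → ZMod 2} {C : ℝ} (hA : RecA A) (hBil : BilP A C) (b : ℕ → ZMod 2)
    {τ : ι → ℕ} {m : ℕ} (h0 : ∃ i, τ i = 0) (h31 : nt τ 3 = nt τ 1 + 2 * m)
    {P : ι → ℕ → Prop} (hP : ∀ i p, P i p → Pr p ∧ ty p = τ i) (hD : ∀ i, Dn (P i)) :
    Tendsto (fun X : ℕ => (((Tup P X).filter fun p => Gd A b (univ.image p)).card : ℝ) /
      ((Tup P X).card : ℝ)) atTop (𝓝 (al (nt τ 2) (nt τ 3) (nt τ 1))) := by
  obtain ⟨i₀, hi₀⟩ := h0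
  have hPp : ∀ i p, P i p → p.Prime := fun i p h => (hP i p h).1.1
  have hcard : 1 ≤ Fintype.card ι := Fintype.card_pos_iff.2 ⟨i₀⟩
  by_cases hc : Fintype.card ι = 1
  · -- a single inert prime
    have hs : Subsingleton ι := Fintype.card_le_one_iff_subsingleton.1 hc.le
    have hall : ∀ i, τ i = 0 := fun i => by rw [Subsingleton.elim i i₀]; exact hi₀
    have hn : ∀ r, r ≠ 0 → nt τ r = 0 := by
      intro r hr
      unfold nt
      rw [Finset.card_eq_zero]
      refine Finset.filter_eq_empty_iff.2 fun i _ h => hr ?_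
      rw [← h, hall i]
    obtain ⟨c, C', X₀, hc0, -, hsz⟩ := tup_size hPp hD (j := 0) (by rw [hc])
    rw [hn 2 (by norm_num), hn 3 (by norm_num), hn 1 (by norm_num), al_zero]
    refine tendsto_const_nhds.congr' ?_
    filter_upwards [eventually_ge_atTop X₀, eventually_ge_atTop 3] with X hX hX3
    have hX1 : (1 : ℝ) < X := by exact_mod_cast (by omega : 1 < X)
    have hl : 0 < Real.log X := Real.log_pos hX1
    have h4 := (hsz X hX).1
    have h6 : (0 : ℝ) < ((Tup P X).card : ℝ) := by
      refine lt_of_lt_of_le ?_ h4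
      positivity
    have h7 : ((Tup P X).filter fun p => Gd A b (univ.image p)) = Tup P X := by
      refine Finset.filter_true_of_mem fun p hp => ?_
      have h8 := ((mem_Tup hPp).1 hp).1
      refine gd_triv49 A b fun q hq => ?_
      rw [mem_image] at hq
      obtain ⟨i, -, rfl⟩ := hq
      rw [(hP i _ (h8 i)).2, hall i]
    rw [h7, div_self h6.ne']
  · obtain ⟨j, hj⟩ : ∃ j, Fintype.card ι = j + 2 := ⟨Fintype.card ι - 2, by omega⟩
    refine law_abs24 hj (al_nonneg _ _ _) (al_le_one _ _ _) ?_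
      (excH49 (fun i p h => (hP i p h).1) hj) (low hPp hD i₀)
    refine ⟨2 ^ (Fintype.card ι + 2 * Fintype.card ι ^ 2), C, by positivity, hBil.1, ?_⟩
    intro X z H N κ hH hz hκ hκz hN
    exact sum_boxes49 hA hBil b τ m ⟨i₀, hi₀⟩ h31 P X z H N κ hP hH hz hκ hκz hN

end Pool.Agent.N62.FQ
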